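import Pool.Agent.Helper9K9.DT.Defs

/-!
# The sign projectors: definitions
-/

set_option autoImplicit false

open CategoryTheory AlgebraicGeometry

universe u v

namespace Pool.Agent.Helper9K9.DT

open Pool.Agent.H914 VarClass Obj WeilCohomology

variable {k : Type u} [Field k] {𝒱 : VarClass k} {ops : CycleOps 𝒱}

/-- The `K`-span in `H(X)` of the classes of the cycles of all codimensions (for the de Rham
cohomology with coefficients in a field `F ⊇ k` of characteristic zero: the image of
`K_0(X) ⊗ F` under the Chern character). -/
def algAll (W : WeilCohomology.{u, v} ops) (X : 𝒱.Obj) : Submodule W.K (W.H X) :=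
  Submodule.span W.K {c | ∃ p : ℕ, ∃ z, X.IsCyc p z ∧ W.cl X z = c}

/-- The class `c` is algebraic: it is a combination of classes of cycles of all codimensions, with
coefficients in the coefficient field of the cohomology. -/
def IsAlg (W : WeilCohomology.{u, v} ops) (X : 𝒱.Obj) (c : W.H X) : Prop := c ∈ algAll W X

/-- The even part of the cohomology (`p = 0`), and the odd part (`p = 1`). -/
def parity (W : WeilCohomology.{u, v} ops) (X : 𝒱.Obj) (p : Fin 2) : Submodule W.K (W.H X) :=
  ⨆ i : ℕ, W.gr X (2 * i + p)

/-- The class `x` is in the even part of the cohomology (`p = 0`), or in the odd part (`p = 1`). -/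
def HasParity (W : WeilCohomology.{u, v} ops) (X : 𝒱.Obj) (p : Fin 2) (x : W.H X) : Prop :=
  x ∈ parity W X p

/-- The dimension of the even part of the cohomology (`p = 0`), or of the odd part (`p = 1`). -/
noncomputable def parityDim (W : WeilCohomology.{u, v} ops) (X : 𝒱.Obj) (p : Fin 2) : ℕ :=
  Module.finrank W.K (parity W X p)

/-- The action of a correspondence on a class. -/
noncomputable def act (W : WeilCohomology.{u, v} ops) (X : 𝒱.Obj) (γ : W.H (X.prod X))
    (x : W.H X) : W.H X :=
  W.corr γ x

/-- The projector of `H(X)` to the part of parity `p` is algebraic: some combination of classes of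
cycles of all codimensions on `X × X`, with coefficients in the coefficient field, acts as the
identity on the part of parity `p` and as zero on the part of the other parity. -/
def SignProjAlgebraic (W : WeilCohomology.{u, v} ops) (X : 𝒱.Obj) (p : Fin 2) : Prop :=
  ∃ γ, IsAlg W (X.prod X) γ ∧ (∀ x, HasParity W X p x → act W X γ x = x) ∧
    ∀ x, HasParity W X (1 - p) x → act W X γ x = 0

/-- The square of the determinant of the part `H^±(X)` of parity `p` is algebraic: if `b` is its
dimension and `v 0, …, v (b - 1)` lie in it, then the external product with itself of their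
determinant, a class on `X ^ b × X ^ b`, is a combination of classes of cycles of all codimensions
with coefficients in the coefficient field. (If the `v i` form a basis, their determinant spans the
line `det H^±(X)`, the image of `⋀ ^ b H^±(X)` under antisymmetrisation in `H(X ^ b)`. If `b = 0`
the condition is empty.) -/
def SignDetAlgebraic (W : WeilCohomology.{u, v} ops) (X : 𝒱.Obj) (p : Fin 2) : Prop :=
  ∀ (m : ℕ) (v : Fin (m + 1) → W.H X), parityDim W X p = m + 1 →
    (∀ i, HasParity W X p (v i)) →
      IsAlg W ((pw X m).prod (pw X m)) (box W (alt W X v) (alt W X v))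

end Pool.Agent.Helper9K9.DT
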