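import Pool.Agent.Helper9K9.DT.Lef
import Pool.Agent.Helper9K9.DT.SignDefs

/-!
# The determinant criterion for the sign projectors
-/

set_option autoImplicit false

open CategoryTheory AlgebraicGeometry

universe u v

namespace Pool.Agent.Helper9K9.DT

open Pool.Agent.H914 Pool.Agent.H447 VarClass Obj WeilCohomology Pool.Agent.Helper9K9.LF

variable {k : Type u} [Field k] {𝒱 : VarClass k} {ops : CycleOps 𝒱}
variable {W : WeilCohomology.{u, v} ops} {X Y Z : 𝒱.Obj}

lemma algAll_eq : algAll W X = algSpan W X := rfl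

lemma parity_eq (p : Fin 2) : parity W X p = par W X p := rfl

/-- Classes of different parities are orthogonal. -/
lemma tr_eq_zero_par {x y : W.H X} (hx : x ∈ par W X 0) (hy : y ∈ par W X 1) :
    W.tr X (x * y) = 0 := by
  refine par_induction (P := fun x => W.tr X (x * y) = 0) ?_ ?_ ?_ hx
  · intro i a ha
    refine par_induction (P := fun y => W.tr X (a * y) = 0) ?_ ?_ ?_ hy
    · intro j b hb
      exact W.tr_eq_zero (W.mul_mem ha hb) (by omega)
    · simp
    · intro a' b' ha' hb'; rw [mul_add, map_add, ha', hb', add_zero]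
  · simp
  · intro a b ha hb; rw [add_mul, map_add, ha, hb, add_zero]

lemma tr_eq_zero_par' {x y : W.H X} (hx : x ∈ par W X 1) (hy : y ∈ par W X 0) :
    W.tr X (x * y) = 0 := by
  rw [← par_zero_comm hy]
  exact tr_eq_zero_par hy hx

lemma par_split (x : W.H X) : ∃ y ∈ par W X 0, ∃ z ∈ par W X 1, x = y + z := by
  refine gr_induction (W.isInternal X)
    (p := fun x => ∃ y ∈ par W X 0, ∃ z ∈ par W X 1, x = y + z) ?_ ?_ x
  · intro i a ha
    rcases Nat.even_or_odd' i with ⟨j, hj | hj⟩
    · exact ⟨a, gr_mem_par (i := j) (by rwa [hj] at ha), 0, Submodule.zero_mem _, by simp⟩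
    · exact ⟨0, Submodule.zero_mem _, a, gr_mem_par (i := j) (by rwa [hj] at ha), by simp⟩
  · rintro a b ⟨y, hy, z, hz, rfl⟩ ⟨y', hy', z', hz', rfl⟩
    exact ⟨y + y', Submodule.add_mem _ hy hy', z + z', Submodule.add_mem _ hz hz', by abel⟩

/-- A class orthogonal to the classes of its own parity vanishes. -/
lemma par_nondeg {p : Fin 2} {x : W.H X} (hx : x ∈ par W X p)
    (h : ∀ y ∈ par W X p, W.tr X (y * x) = 0) : x = 0 := by
  apply nondeg_right
  intro b
  obtain ⟨y, hy, z, hz, rfl⟩ := par_split b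
  rw [add_mul, map_add]
  fin_cases p
  · rw [h y hy, tr_eq_zero_par' hz hx, add_zero]
  · rw [h z hz, tr_eq_zero_par hy hx, add_zero]

lemma one_mem_algSpan : (1 : W.H X) ∈ algSpan W X := by
  rw [← W.cl_fund X]; exact algSpan_gen X.V.fundCycle_mem

lemma gram_par {p : Fin 2} {m : ℕ} (e : Module.Basis (Fin (m + 1)) W.K (par W X p)) :
    (gram W X (fun i => (e i : W.H X)) (fun i => (e i : W.H X)) 1).det ≠ 0 := by
  apply gram_det_ne e
  intro c hc
  have h1 : (∑ l, c l • (e l : W.H X)) = 0 := by
    apply par_nondeg (p := p)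
      (Submodule.sum_mem _ fun l _ => Submodule.smul_mem _ (c l) (e l).2)
    intro y hy
    have := hc y hy
    rwa [mul_one] at this
  have h4 : ∑ l, c l • e l = 0 := by
    apply Subtype.ext
    rw [Submodule.coe_zero, ← h1, Submodule.coe_sum]
    rfl
  funext l
  exact Fintype.linearIndependent_iff.1 e.linearIndependent c h4 l

/-- The operator of the inverse tensor is a sign projector. -/
lemma corr_inv2_par {p : Fin 2} {m : ℕ} (e : Module.Basis (Fin (m + 1)) W.K (par W X p)) :
    (∀ x ∈ par W X p, W.corr (inv2 W X (fun i => (e i : W.H X)) (fun i => (e i : W.H X)) 1) x =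
      (-1 : W.K) ^ ((p : ℕ) * p) • x) ∧
    ∀ x ∈ par W X (1 - p : Fin 2),
      W.corr (inv2 W X (fun i => (e i : W.H X)) (fun i => (e i : W.H X)) 1) x = 0 := by
  have hpar : ∀ i, (e i : W.H X) ∈ par W X p := fun i => (e i).2
  have hG := gram_par e
  constructor
  · intro x hx
    have h3 : x = ∑ i, (e.repr ⟨x, hx⟩ i) • (e i : W.H X) := by
      have h4 := congrArg (Submodule.subtype (par W X p)) (e.sum_repr ⟨x, hx⟩)
      rw [map_sum] at h4
      exact h4.symm
    conv_lhs => rw [h3, map_sum]
    conv_rhs => rw [h3, Finset.smul_sum]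
    refine Finset.sum_congr rfl fun i _ => ?_
    have h5 := corr_inv2_mul hpar (d := (1 : W.H X)) one_mem_par hG i
    rw [mul_one] at h5
    rw [map_smul, h5, smul_comm]
  · intro x hx
    apply corr_inv2_zero hpar hx
    intro i
    fin_cases p
    · exact tr_eq_zero_par (hpar i) hx
    · exact tr_eq_zero_par' (hpar i) hx

/-- The projector is algebraic, in terms of submodules. -/
def SPA (W : WeilCohomology.{u, v} ops) (X : 𝒱.Obj) (p : Fin 2) : Prop :=
  ∃ γ ∈ algSpan W (X.prod X),
    (∀ x ∈ par W X p, W.corr γ x = x) ∧ ∀ x ∈ par W X (1 - p : Fin 2), W.corr γ x = 0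

/-- The square of the determinant is algebraic, in terms of submodules. -/
def SDA (W : WeilCohomology.{u, v} ops) (X : 𝒱.Obj) (p : Fin 2) : Prop :=
  ∀ (m : ℕ) (v : Fin (m + 1) → W.H X), Module.finrank W.K (par W X p) = m + 1 →
    (∀ i, v i ∈ par W X p) →
      box W (alt W X v) (alt W X v) ∈ algSpan W ((pw X m).prod (pw X m))

lemma spa_iff (p : Fin 2) : SignProjAlgebraic W X p ↔ SPA W X p := Iff.rfl

lemma sda_iff (p : Fin 2) : SignDetAlgebraic W X p ↔ SDA W X p := Iff.rfl

/-- **The determinant criterion for the sign projectors.** -/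
theorem signProj_iff (p : Fin 2) : SPA W X p ↔ SDA W X p := by
  have hfin : Module.Finite W.K (W.H X) := (W.isPoincareAlgebra X).finite
  have hsign : (-1 : W.K) ^ ((p : ℕ) * p) ≠ 0 := pow_ne_zero _ (by simp)
  constructor
  · rintro ⟨γ, hγ, h1, h2⟩ m v hm hv
    let e : Module.Basis (Fin (m + 1)) W.K (par W X p) :=
      Module.finBasisOfFinrankEq W.K (par W X p) hm
    have h3 := corr_inv2_par e
    have h4 : inv2 W X (fun i => (e i : W.H X)) (fun i => (e i : W.H X)) 1 =
        (-1 : W.K) ^ ((p : ℕ) * p) • γ := by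
      apply corrL_inj
      change W.corr _ = W.corr _
      rw [corr_smul]
      apply LinearMap.ext
      intro x
      obtain ⟨y, hy, z, hz, rfl⟩ := par_split x
      rw [LinearMap.smul_apply, map_add, map_add, smul_add]
      fin_cases p
      · rw [h3.1 y hy, h1 y hy, h3.2 z hz, h2 z hz, smul_zero]
      · rw [h3.2 y hy, h2 y hy, h3.1 z hz, h1 z hz, smul_zero]
    have h5 : box W (alt W X fun i => (e i : W.H X)) (alt W X fun i => (e i : W.H X)) ∈
        algSpan W ((pw X m).prod (pw X m)) := by
      rw [alt_box_iff (fun i => (e i).2) (fun i => (e i).2) one_mem_algSpan (gram_par e), h4]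
      exact Submodule.smul_mem _ _ hγ
    obtain ⟨c, hc⟩ := alt_eq_smul e hv
    rw [hc, box_smul_left, box_smul_right]
    exact Submodule.smul_mem _ _ (Submodule.smul_mem _ _ h5)
  · intro h
    rcases Nat.eq_zero_or_pos (Module.finrank W.K (par W X p)) with hb | hb
    · have h1 : par W X p = ⊥ := Submodule.finrank_eq_zero.1 hb
      refine ⟨0, Submodule.zero_mem _, ?_, ?_⟩
      · intro x hx
        rw [h1, Submodule.mem_bot] at hx
        rw [hx, map_zero]
      · intro x _
        rw [corr_zero, LinearMap.zero_apply]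
    · obtain ⟨m, hm⟩ : ∃ m, Module.finrank W.K (par W X p) = m + 1 :=
        ⟨_, (Nat.succ_pred_eq_of_pos hb).symm⟩
      let e : Module.Basis (Fin (m + 1)) W.K (par W X p) :=
        Module.finBasisOfFinrankEq W.K (par W X p) hm
      have h1 := (alt_box_iff (W := W) (X := X) (p := p) (fun i => (e i).2) (fun i => (e i).2)
        one_mem_algSpan (gram_par e)).1 (h m _ hm fun i => (e i).2)
      have h3 := corr_inv2_par e
      refine ⟨(-1 : W.K) ^ ((p : ℕ) * p) • inv2 W X (fun i => (e i : W.H X))
        (fun i => (e i : W.H X)) 1, Submodule.smul_mem _ _ h1, ?_, ?_⟩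
      · intro x hx
        rw [corr_smul, LinearMap.smul_apply, h3.1 x hx, smul_smul, ← mul_pow]
        simp
      · intro x hx
        rw [corr_smul, LinearMap.smul_apply, h3.2 x hx, smul_zero]

/-- The two sign projectors are algebraic together. -/
theorem signProj_compl (p : Fin 2) (h : SPA W X p) :
    SPA W X (1 - p) := by
  obtain ⟨γ, hγ, h1, h2⟩ := h
  refine ⟨W.push (diag X) 1 - γ,
    Submodule.sub_mem _ (algSpan_push _ one_mem_algSpan) hγ, ?_, ?_⟩
  · intro x hx
    have : W.corr (W.push (diag X) 1 - γ) x = W.corr (W.push (diag X) 1) x - W.corr γ x := by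
      simp only [corr_apply, sub_mul, map_sub]
    rw [this, corr_diag, one_mul, h2 x hx, sub_zero]
  · intro x hx
    have : W.corr (W.push (diag X) 1 - γ) x = W.corr (W.push (diag X) 1) x - W.corr γ x := by
      simp only [corr_apply, sub_mul, map_sub]
    have h3 : (1 : Fin 2) - (1 - p) = p := by fin_cases p <;> rfl
    rw [h3] at hx
    rw [this, corr_diag, one_mul, h1 x hx, sub_self]

/-- **The sign conjecture and determinants.** -/
theorem sign_tfae : List.TFAE [SignProjAlgebraic W X 0, SignProjAlgebraic W X 1,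
    SignDetAlgebraic W X 0, SignDetAlgebraic W X 1] := by
  rw [spa_iff, spa_iff, sda_iff, sda_iff]
  tfae_have 1 ↔ 3 := signProj_iff 0
  tfae_have 2 ↔ 4 := signProj_iff 1
  tfae_have 1 → 2 := fun h => by simpa using signProj_compl 0 h
  tfae_have 2 → 1 := fun h => by simpa using signProj_compl 1 h
  tfae_finish

end Pool.Agent.Helper9K9.DT
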