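import Pool.Agent.Helper9K9.DT.Main
import Pool.Agent.Helper9K9.LF.Geo
import Pool.Agent.Helper9K9.LF.Conv

/-!
# The determinant criterion for the Lefschetz standard conjecture
-/

set_option autoImplicit false

open CategoryTheory AlgebraicGeometry

universe u v

namespace Pool.Agent.Helper9K9.DT

open Pool.Agent.H914 Pool.Agent.H447 VarClass Obj WeilCohomology Pool.Agent.Helper9K9.LF

variable {k : Type u} [Field k] {𝒱 : VarClass k} {ops : CycleOps 𝒱}
variable {W : WeilCohomology.{u, v} ops} {X Y Z : 𝒱.Obj}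

/-- A class orthogonal to the complementary degree vanishes. -/
lemma eq_zero_of_orth {i j : ℕ} (hij : i + j = 2 * X.dim) {x : W.H X} (hx : x ∈ W.gr X i)
    (h : ∀ y ∈ W.gr X j, W.tr X (y * x) = 0) : x = 0 := by
  apply nondeg_right
  intro b
  refine gr_induction (W.isInternal X) (p := fun b => W.tr X (b * x) = 0) ?_ ?_ b
  · intro l b hb
    by_cases hl : l = j
    · subst hl; exact h b hb
    · exact W.tr_eq_zero (W.mul_mem hb hx) (by omega)
  · intro a b ha hb
    rw [add_mul, map_add, ha, hb, add_zero]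

/-- The Gram determinant of a basis. -/
lemma gram_det_ne {m : ℕ} {V : Submodule W.K (W.H X)} (e : Module.Basis (Fin (m + 1)) W.K V)
    {w : Fin (m + 1) → W.H X} {d : W.H X}
    (h : ∀ c : Fin (m + 1) → W.K, (∀ y ∈ V, W.tr X (y * (∑ l, c l • w l) * d) = 0) → c = 0) :
    (gram W X (fun i => (e i : W.H X)) w d).det ≠ 0 := by
  intro h0
  obtain ⟨c, hc, hG⟩ := Matrix.exists_mulVec_eq_zero_iff.2 h0
  apply hc
  apply h
  intro y hy
  have h1 : ∀ i, W.tr X ((e i : W.H X) * (∑ l, c l • w l) * d) = 0 := by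
    intro i
    have h2 := congrFun hG i
    rw [Matrix.mulVec, dotProduct, Pi.zero_apply] at h2
    rw [Finset.mul_sum, Finset.sum_mul, map_sum, ← h2]
    refine Finset.sum_congr rfl fun l _ => ?_
    rw [mul_smul_comm, smul_mul_assoc, map_smul, smul_eq_mul, mul_comm]
    rfl
  have h3 : y = ∑ i, (e.repr ⟨y, hy⟩ i) • (e i : W.H X) := by
    have h4 := congrArg (Submodule.subtype V) (e.sum_repr ⟨y, hy⟩)
    rw [map_sum] at h4
    exact h4.symm
  rw [h3, Finset.sum_mul, Finset.sum_mul, map_sum]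
  refine Finset.sum_eq_zero fun i _ => ?_
  rw [smul_mul_assoc, smul_mul_assoc, map_smul, h1 i, smul_zero]

/-- A basis of `H^j` indexed by `Fin (m + 1)`. -/
lemma exists_basis {j m : ℕ} (h : bettiNumber W X j = m + 1) :
    Nonempty (Module.Basis (Fin (m + 1)) W.K (W.gr X j)) := by
  have : Module.Finite W.K (W.H X) := (W.isPoincareAlgebra X).finite
  exact ⟨Module.finBasisOfFinrankEq W.K (W.gr X j) h⟩

/-- The power of the class of `D`. -/
lemma pow_mem_gr {D : X.Cycles} (hD : X.IsCyc 1 D) (c : ℕ) : W.cl X D ^ c ∈ W.gr X (2 * c) := by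
  induction c with
  | zero => simpa using W.one_mem X
  | succ c ih =>
    rw [pow_succ]
    have := W.mul_mem ih (W.cl_mem hD)
    rwa [show 2 * c + 2 * 1 = 2 * (c + 1) by ring] at this

lemma pow_mem_algSpan {D : X.Cycles} (hD : X.IsCyc 1 D) (c : ℕ) :
    W.cl X D ^ c ∈ algSpan W X := by
  induction c with
  | zero => rw [pow_zero, ← W.cl_fund X]; exact algSpan_gen X.V.fundCycle_mem
  | succ c ih => rw [pow_succ]; exact algSpan_mul ih (algSpan_gen hD)

lemma mulLeft_pow_apply {D : X.Cycles} (hD : X.IsCyc 1 D) (c : ℕ) (a : W.H X) :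
    (LinearMap.mulLeft W.K (W.cl X D) ^ c) a = a * W.cl X D ^ c := by
  rw [LinearMap.pow_mulLeft, LinearMap.mulLeft_apply, W.even_comm (pow_mem_gr hD c)]

/-- The Gram determinant for a basis of `H^j` and the power of a Lefschetz class. -/
lemma gram_lef {D : X.Cycles} (hD : X.IsCyc 1 D) (hHL : HardLefschetz W X D) {j m : ℕ}
    (hj : j ≤ X.dim) (e : Module.Basis (Fin (m + 1)) W.K (W.gr X j)) :
    (gram W X (fun i => (e i : W.H X)) (fun i => (e i : W.H X)) (W.cl X D ^ (X.dim - j))).det ≠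
      0 := by
  apply gram_det_ne e
  intro c hc
  have h1 : (∑ l, c l • (e l : W.H X)) * W.cl X D ^ (X.dim - j) = 0 := by
    apply eq_zero_of_orth (i := 2 * X.dim - j) (j := j) (by omega)
    · have h2 := W.mul_mem (Submodule.sum_mem (W.gr X j) fun l (_ : l ∈ Finset.univ) =>
        Submodule.smul_mem _ (c l) (e l).2) (pow_mem_gr (W := W) hD (X.dim - j))
      rwa [show j + 2 * (X.dim - j) = 2 * X.dim - j by omega] at h2
    · intro y hy
      rw [← mul_assoc]
      exact hc y hy
  have h3 : (∑ l, c l • (e l : W.H X)) = 0 := by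
    apply (hHL j hj).1 _ (Submodule.sum_mem _ fun l _ => Submodule.smul_mem _ (c l) (e l).2)
    rw [mulLeft_pow_apply hD, h1]
  have h4 : ∑ l, c l • e l = 0 := by
    apply Subtype.ext
    rw [Submodule.coe_zero, ← h3, Submodule.coe_sum]
    rfl
  funext l
  exact Fintype.linearIndependent_iff.1 e.linearIndependent c h4 l

lemma inv2_mem_gr {j m : ℕ} {v w : Fin (m + 1) → W.H X} {d : W.H X} (hv : ∀ i, v i ∈ W.gr X j)
    (hw : ∀ i, w i ∈ W.gr X j) : inv2 W X v w d ∈ W.gr (X.prod X) (2 * j) := by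
  refine Submodule.sum_mem _ fun l _ => ?_
  rw [two_mul]
  exact box_mem_gr (Submodule.sum_mem _ fun i _ => Submodule.smul_mem _ _ (hv i)) (hw l)

/-- For a basis the condition in the definition of `DetAlgebraic` is enough. -/
lemma detAlgebraic_of_basis {j m : ℕ} (e : Module.Basis (Fin (m + 1)) W.K (W.gr X j))
    (h : box W (alt W X fun i => (e i : W.H X)) (alt W X fun i => (e i : W.H X)) ∈
      algSpan W ((pw X m).prod (pw X m))) : DetAlgebraic W X j := by
  intro m' v hb hv
  have hm : m' = m := by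
    have h1 : Module.finrank W.K (W.gr X j) = m + 1 := by
      rw [Module.finrank_eq_card_basis e, Fintype.card_fin]
    rw [bettiNumber, h1] at hb
    omega
  subst hm
  apply mem_spanCycles_of_algSpan
  · obtain ⟨c, hc⟩ := alt_eq_smul e hv
    rw [hc, box_smul_left, box_smul_right]
    exact Submodule.smul_mem _ _ (Submodule.smul_mem _ _ h)
  · rw [two_mul]
    exact box_mem_gr (alt_mem_gr hv) (alt_mem_gr hv)

lemma DetAlgebraic.mem {j m : ℕ} (h : DetAlgebraic W X j)
    (e : Module.Basis (Fin (m + 1)) W.K (W.gr X j)) :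
    box W (alt W X fun i => (e i : W.H X)) (alt W X fun i => (e i : W.H X)) ∈
      algSpan W ((pw X m).prod (pw X m)) := by
  refine spanCycles_le_algSpan _ (h m _ ?_ fun i => (e i).2)
  rw [bettiNumber, Module.finrank_eq_card_basis e, Fintype.card_fin]

/-- **From the determinants to operators.** -/
theorem injective_of_det {D : X.Cycles} (hD : X.IsCyc 1 D) (hHL : HardLefschetz W X D) {j : ℕ}
    (hj : j ≤ X.dim) (h : DetAlgebraic W X j) :
    SomeIn (spanCycles W (X.prod X) j)
      (fun γ => InjectiveOn (W.gr X (2 * X.dim - j)) (W.corr γ)) := by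
  rcases Nat.eq_zero_or_pos (bettiNumber W X j) with hb | hb
  · refine ⟨0, Submodule.zero_mem _, ?_⟩
    intro x hx _
    have : Module.Finite W.K (W.H X) := (W.isPoincareAlgebra X).finite
    obtain ⟨a, ha, rfl⟩ := (hHL j hj).2 x hx
    have h1 : W.gr X j = ⊥ := Submodule.finrank_eq_zero.1 hb
    rw [h1, Submodule.mem_bot] at ha
    rw [ha, map_zero]
  · obtain ⟨m, hm⟩ : ∃ m, bettiNumber W X j = m + 1 := ⟨_, (Nat.succ_pred_eq_of_pos hb).symm⟩
    obtain ⟨e⟩ := exists_basis hm
    have hpar : ∀ i, (e i : W.H X) ∈ par W X j := fun i => gr_le_par X j (e i).2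
    have hG := gram_lef hD hHL hj e
    have hinv := (alt_box_iff hpar hpar (pow_mem_algSpan hD (X.dim - j)) hG).1 (h.mem e)
    refine ⟨_, mem_spanCycles_of_algSpan hinv (inv2_mem_gr (fun i => (e i).2) fun i => (e i).2), ?_⟩
    intro x hx h0
    obtain ⟨a, ha, rfl⟩ := (hHL j hj).2 x hx
    rw [mulLeft_pow_apply hD] at h0 ⊢
    have h3 : a = ∑ i, (e.repr ⟨a, ha⟩ i) • (e i : W.H X) := by
      have h4 := congrArg (Submodule.subtype (W.gr X j)) (e.sum_repr ⟨a, ha⟩)
      rw [map_sum] at h4
      exact h4.symm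
    have h5 : W.corr (inv2 W X (fun i => (e i : W.H X)) (fun i => (e i : W.H X))
        (W.cl X D ^ (X.dim - j))) (a * W.cl X D ^ (X.dim - j)) = (-1 : W.K) ^ (j * j) • a := by
      conv_lhs => rw [h3, Finset.sum_mul, map_sum]
      conv_rhs => rw [h3, Finset.smul_sum]
      refine Finset.sum_congr rfl fun i _ => ?_
      rw [smul_mul_assoc, map_smul, corr_inv2_mul hpar
        (algSpan_le_par (pow_mem_algSpan hD (X.dim - j))) hG, smul_comm]
    rw [h5] at h0
    have h6 : a = 0 := (smul_eq_zero.1 h0).resolve_left (pow_ne_zero _ (by simp))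
    rw [h6, zero_mul]

/-- The inverse tensor for a basis of `H^j` induces the operator `proj_j ∘ θ ∘ proj_(2n - j)` up to
a sign, if `θ` inverts the power of the Lefschetz operator. -/
lemma corr_inv2_eq {D : X.Cycles} (hD : X.IsCyc 1 D) (hHL : HardLefschetz W X D) {j m : ℕ}
    (hj : j ≤ X.dim) (e : Module.Basis (Fin (m + 1)) W.K (W.gr X j))
    {θ : Module.End W.K (W.H X)}
    (hθ : ∀ a ∈ W.gr X j, θ ((LinearMap.mulLeft W.K (W.cl X D) ^ (X.dim - j)) a) = a) :
    W.corr (inv2 W X (fun i => (e i : W.H X)) (fun i => (e i : W.H X)) (W.cl X D ^ (X.dim - j))) =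
      (-1 : W.K) ^ (j * j) • (proj (W.isInternal X) j * θ *
        proj (W.isInternal X) (2 * X.dim - j)) := by
  have hpar : ∀ i, (e i : W.H X) ∈ par W X j := fun i => gr_le_par X j (e i).2
  have hG := gram_lef hD hHL hj e
  apply gr_ext (W.isInternal X)
  intro l a ha
  by_cases hl : l = 2 * X.dim - j
  · subst hl
    obtain ⟨b, hb, rfl⟩ := (hHL j hj).2 a ha
    rw [LinearMap.smul_apply, Module.End.mul_apply, Module.End.mul_apply,
      proj_same (W.isInternal X) ha, hθ b hb, proj_same (W.isInternal X) hb,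
      mulLeft_pow_apply hD]
    have h3 : b = ∑ i, (e.repr ⟨b, hb⟩ i) • (e i : W.H X) := by
      have h4 := congrArg (Submodule.subtype (W.gr X j)) (e.sum_repr ⟨b, hb⟩)
      rw [map_sum] at h4
      exact h4.symm
    conv_lhs => rw [h3, Finset.sum_mul, map_sum]
    conv_rhs => rw [h3, Finset.smul_sum]
    refine Finset.sum_congr rfl fun i _ => ?_
    rw [smul_mul_assoc, map_smul, corr_inv2_mul hpar
      (algSpan_le_par (pow_mem_algSpan hD (X.dim - j))) hG, smul_comm]
  · rw [LinearMap.smul_apply, Module.End.mul_apply, Module.End.mul_apply,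
      proj_ne (W.isInternal X) ha hl, map_zero, map_zero, smul_zero]
    apply corr_inv2_zero hpar (gr_le_par X l ha)
    intro i
    exact W.tr_eq_zero (W.mul_mem (e i).2 ha) (by omega)

/-- **From the operators to the determinants.** -/
theorem det_of_theta {D : X.Cycles} (hD : X.IsCyc 1 D) (hHL : HardLefschetz W X D) {r : ℕ}
    (h : ∀ c, r ≤ c → c ≤ X.dim → ∃ θ, ROp W X (-(c : ℤ)) θ ∧
      ∀ a ∈ W.gr X (X.dim - c), θ ((LinearMap.mulLeft W.K (W.cl X D) ^ c) a) = a)
    {j : ℕ} (hj : j + r ≤ X.dim) : DetAlgebraic W X j := by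
  rcases Nat.eq_zero_or_pos (bettiNumber W X j) with hb | hb
  · intro m v hm
    omega
  obtain ⟨m, hm⟩ : ∃ m, bettiNumber W X j = m + 1 := ⟨_, (Nat.succ_pred_eq_of_pos hb).symm⟩
  obtain ⟨e⟩ := exists_basis hm
  choose! θ hθR hθ using h
  have hproj := proj_mem_trunc rop_opAlg (W.isInternal X) W_hbd (rop_mulLeft hD) hHL θ hθR hθ j
    (by omega) (X.dim - j) (by omega)
  rw [show X.dim - (X.dim - j) = j by omega,
    show X.dim + (X.dim - j) = 2 * X.dim - j by omega] at hproj
  have h1 : ROp W X (0 + -((X.dim - j : ℕ) : ℤ) + 0) (proj (W.isInternal X) j *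
      θ (X.dim - j) * proj (W.isInternal X) (2 * X.dim - j)) :=
    rop_opAlg.mul (rop_opAlg.mul hproj.1 (hθR (X.dim - j) (by omega) (by omega))) hproj.2
  obtain ⟨z, hz, hz'⟩ := exists_of_rop (p := j) (by omega) h1
  have hθ' := hθ (X.dim - j) (by omega) (by omega)
  rw [show X.dim - (X.dim - j) = j by omega] at hθ'
  have h2 := corr_inv2_eq hD hHL (by omega) e hθ'
  have hpar : ∀ i, (e i : W.H X) ∈ par W X j := fun i => gr_le_par X j (e i).2
  have hG := gram_lef hD hHL (by omega) e
  apply detAlgebraic_of_basis e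
  rw [alt_box_iff hpar hpar (pow_mem_algSpan hD (X.dim - j)) hG]
  rw [← hz'] at h2
  have h3 : inv2 W X (fun i => (e i : W.H X)) (fun i => (e i : W.H X)) (W.cl X D ^ (X.dim - j)) =
      (-1 : W.K) ^ (j * j) • W.cl (X.prod X) z := by
    apply corrL_inj
    change W.corr _ = W.corr _
    rw [h2, corr_smul]
  rw [h3]
  exact Submodule.smul_mem _ _ (algSpan_gen hz)

/-- **The determinant criterion in the degrees up to `i`.** -/
theorem upTo_iff_det {D : X.Cycles} (hD : X.IsCyc 1 D) (hHL : HardLefschetz W X D) {i : ℕ}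
    (hi : i < X.dim) : LefschetzUpTo W X D i ↔ ∀ j ≤ i, DetAlgebraic W X j := by
  constructor
  · intro h j hj
    exact det_of_theta hD hHL (r := X.dim - i) ((lefschetzUpTo_iff hHL hi).1 h) (by omega)
  · intro h
    refine ((upTo_tfae hD hHL hi).out 0 1).2 fun j hj => ?_
    exact injective_of_det hD hHL (by omega) (h j hj)

lemma theta_of_lefschetzB {D : X.Cycles} (hD : X.IsCyc 1 D) (hHL : HardLefschetz W X D)
    (hn : 1 ≤ X.dim) (hB : LefschetzB W X D) : ∀ c, 0 ≤ c → c ≤ X.dim →
      ∃ θ, ROp W X (-(c : ℤ)) θ ∧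
        ∀ a ∈ W.gr X (X.dim - c), θ ((LinearMap.mulLeft W.K (W.cl X D) ^ c) a) = a := by
  have hi : X.dim - 1 < X.dim := by omega
  have hB' : LefschetzB W X D ↔ ∀ c ≤ X.dim, SpanInjective W X c :=
    (lefschetzB_tfae hD hHL).out 0 2
  have h1 : LefschetzUpTo W X D (X.dim - 1) :=
    ((upTo_tfae hD hHL hi).out 0 1).2 ((injectiveUpTo_iff hi).2 fun j hj => hB'.1 hB _ (by omega))
  have h2 := (lefschetzUpTo_iff hHL hi).1 h1
  intro c _ hc
  rcases Nat.eq_zero_or_pos c with h0 | h0
  · subst h0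
    exact ⟨1, by simpa using rop_opAlg.one, fun a _ => by simp⟩
  · exact h2 c (by omega) hc

/-- The external product of classes multiplied by a class of even degree. -/
lemma ext_mul_even {m p : ℕ} {a : Fin (m + 1) → W.H X} (ha : ∀ i, a i ∈ par W X p) {d : W.H X}
    (hd : d ∈ par W X 0) :
    ext W X (fun i => a i * d) = ext W X a * ext W X fun _ => d := by
  induction m with
  | zero => rw [ext_zero, ext_zero, ext_zero]; rfl
  | succ m ih =>
    rw [ext_succ, ext_succ a, ext_succ fun _ => d, ih fun i => ha i.succ]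
    change _ = box W (a 0) (ext W X fun i : Fin (m + 1) => a i.succ) *
      box W d (ext W X fun _ : Fin (m + 1) => d)
    rw [box_mul (t := 0) (ext_mem_par fun i => ha i.succ) hd, mul_zero, pow_zero, one_smul]

lemma alt_mul_even {m p : ℕ} {a : Fin (m + 1) → W.H X} (ha : ∀ i, a i ∈ par W X p) {d : W.H X}
    (hd : d ∈ par W X 0) :
    alt W X (fun i => a i * d) = alt W X a * ext W X fun _ => d := by
  rw [alt, alt, Finset.sum_mul]
  refine Finset.sum_congr rfl fun σ _ => ?_
  rw [ext_mul_even (fun i => ha (σ i)) hd, smul_mul_assoc]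

lemma betti_symm {D : X.Cycles} (hD : X.IsCyc 1 D) (hHL : HardLefschetz W X D) {j : ℕ}
    (hj : j ≤ X.dim) :
    bettiNumber W X (2 * X.dim - j) = bettiNumber W X j := by
  have : Module.Finite W.K (W.H X) := (W.isPoincareAlgebra X).finite
  let f : W.gr X j →ₗ[W.K] W.H X :=
    (LinearMap.mulLeft W.K (W.cl X D) ^ (X.dim - j)).domRestrict (W.gr X j)
  have hinj : Function.Injective f := by
    rw [← LinearMap.ker_eq_bot, LinearMap.ker_eq_bot']
    intro x hx
    exact Subtype.ext ((hHL j hj).1 x x.2 hx)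
  have hsub : LinearMap.range f = W.gr X (2 * X.dim - j) := by
    apply le_antisymm
    · rintro _ ⟨a, rfl⟩
      change (LinearMap.mulLeft W.K (W.cl X D) ^ (X.dim - j)) (a : W.H X) ∈ _
      rw [mulLeft_pow_apply hD]
      have h2 := W.mul_mem a.2 (pow_mem_gr (W := W) hD (X.dim - j))
      rwa [show j + 2 * (X.dim - j) = 2 * X.dim - j by omega] at h2
    · intro b hb
      obtain ⟨a, ha, hab⟩ := (hHL j hj).2 b hb
      exact ⟨⟨a, ha⟩, hab⟩
  rw [bettiNumber, ← hsub, LinearMap.finrank_range_of_inj hinj]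
  rfl

/-- **Duality.** -/
theorem det_dual {D : X.Cycles} (hD : X.IsCyc 1 D) (hHL : HardLefschetz W X D) {j : ℕ}
    (hj : j ≤ X.dim) (h : DetAlgebraic W X j) : DetAlgebraic W X (2 * X.dim - j) := by
  intro m v hb hv
  apply mem_spanCycles_of_algSpan
  · have h1 : ∀ i, ∃ a ∈ W.gr X j, a * W.cl X D ^ (X.dim - j) = v i := by
      intro i
      obtain ⟨a, ha, hab⟩ := (hHL j hj).2 (v i) (hv i)
      rw [mulLeft_pow_apply hD] at hab
      exact ⟨a, ha, hab⟩
    choose a ha hav using h1
    have hv' : v = fun i => a i * W.cl X D ^ (X.dim - j) := funext fun i => (hav i).symm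
    have hd := algSpan_le_par (pow_mem_algSpan (W := W) hD (X.dim - j))
    rw [hv', alt_mul_even (fun i => gr_le_par X j (ha i)) hd]
    have h2 := box_mul (W := W) (X := pw X m) (Y := pw X m) (t := 0)
      (a := alt W X a) (A := alt W X a)
      (b := ext W X fun _ : Fin (m + 1) => W.cl X D ^ (X.dim - j))
      (B := ext W X fun _ : Fin (m + 1) => W.cl X D ^ (X.dim - j))
      (gr_le_par _ _ (alt_mem_gr ha)) (by simpa using ext_mem_par (W := W) (m := m) fun _ => hd)
    rw [mul_zero, pow_zero, one_smul] at h2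
    rw [← h2]
    refine algSpan_mul ?_ ?_
    · refine spanCycles_le_algSpan _ (h m a ?_ ha)
      rw [← betti_symm hD hHL hj]; exact hb
    · exact algSpan_mul (algSpan_map _ (ext_mem_algSpan fun _ => pow_mem_algSpan hD _))
        (algSpan_map _ (ext_mem_algSpan fun _ => pow_mem_algSpan hD _))
  · rw [two_mul]
    exact box_mem_gr (alt_mem_gr hv) (alt_mem_gr hv)

/-- **The determinant criterion.** -/
theorem lefschetzB_tfae_det {D : X.Cycles} (hD : X.IsCyc 1 D) (hHL : HardLefschetz W X D)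
    (hn : 1 ≤ X.dim) :
    List.TFAE [LefschetzB W X D, ∀ j < X.dim, DetAlgebraic W X j, ∀ j, DetAlgebraic W X j] := by
  tfae_have 1 → 3 := by
    intro hB j
    have h1 : ∀ j ≤ X.dim, DetAlgebraic W X j := fun j hj =>
      det_of_theta hD hHL (theta_of_lefschetzB hD hHL hn hB) (by omega)
    rcases le_or_gt j X.dim with hj | hj
    · exact h1 j hj
    · rcases le_or_gt j (2 * X.dim) with hj2 | hj2
      · have h2 := det_dual hD hHL (j := 2 * X.dim - j) (by omega) (h1 _ (by omega))
        rwa [show 2 * X.dim - (2 * X.dim - j) = j by omega] at h2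
      · intro m v hb
        rw [bettiNumber, W.gr_eq_bot X j (by omega), finrank_bot] at hb
        omega
  tfae_have 3 → 2 := fun h j _ => h j
  tfae_have 2 → 1 := fun h =>
    lefschetzB_of_upTo hD hHL hn ((upTo_iff_det hD hHL (by omega)).2 fun j hj => h j (by omega))
  tfae_finish

end Pool.Agent.Helper9K9.DT
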