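import Pool.Agent.Helper9K9.DT.Defs
import Pool.Agent.H914R2.KCorr
import Pool.Agent.H914R2.GConv

/-!
# Algebraic classes of all codimensions, and the parity of classes
-/

set_option autoImplicit false

open CategoryTheory AlgebraicGeometry

universe u v

namespace Pool.Agent.Helper9K9.DT

open Pool.Agent.H914 VarClass Obj WeilCohomology

variable {k : Type u} [Field k] {𝒱 : VarClass k} {ops : CycleOps 𝒱}

/-- The `K`-span of the classes of the cycles of all codimensions. -/
def algSpan (W : WeilCohomology.{u, v} ops) (X : 𝒱.Obj) : Submodule W.K (W.H X) :=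
  Submodule.span W.K {c | ∃ p : ℕ, ∃ z, X.IsCyc p z ∧ W.cl X z = c}

variable {W : WeilCohomology.{u, v} ops} {X Y Z : 𝒱.Obj}

lemma algSpan_gen {p : ℕ} {z : X.Cycles} (hz : X.IsCyc p z) : W.cl X z ∈ algSpan W X :=
  Submodule.subset_span ⟨p, z, hz, rfl⟩

lemma spanCycles_le_algSpan (q : ℤ) : spanCycles W X q ≤ algSpan W X := by
  apply Submodule.span_mono
  rintro c ⟨p, -, z, hz, rfl⟩
  exact ⟨p, z, hz, rfl⟩

lemma algSpan_mul {a b : W.H X} (ha : a ∈ algSpan W X) (hb : b ∈ algSpan W X) :
    a * b ∈ algSpan W X := by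
  induction ha using Submodule.span_induction with
  | mem x hx =>
    obtain ⟨p, z, hz, rfl⟩ := hx
    induction hb using Submodule.span_induction with
    | mem y hy =>
      obtain ⟨q, w, hw, rfl⟩ := hy
      rw [← W.cl_mul]
      exact algSpan_gen (ops.mul_mem hz hw)
    | zero => rw [mul_zero]; exact Submodule.zero_mem _
    | add x y _ _ hx hy => rw [mul_add]; exact Submodule.add_mem _ hx hy
    | smul a x _ hx => rw [mul_smul_comm]; exact Submodule.smul_mem _ _ hx
  | zero => rw [zero_mul]; exact Submodule.zero_mem _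
  | add x y _ _ hx hy => rw [add_mul]; exact Submodule.add_mem _ hx hy
  | smul a x _ hx => rw [smul_mul_assoc]; exact Submodule.smul_mem _ _ hx

lemma algSpan_map (f : X ⟶ Y) {a : W.H Y} (ha : a ∈ algSpan W Y) :
    W.map f a ∈ algSpan W X := by
  induction ha using Submodule.span_induction with
  | mem x hx =>
    obtain ⟨p, z, hz, rfl⟩ := hx
    rw [← W.cl_pull]
    exact algSpan_gen (ops.pull_mem f hz)
  | zero => rw [map_zero]; exact Submodule.zero_mem _
  | add x y _ _ hx hy => rw [map_add]; exact Submodule.add_mem _ hx hy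
  | smul a x _ hx => rw [map_smul]; exact Submodule.smul_mem _ _ hx

lemma cl_eq_zero_of_lt {p : ℕ} {z : X.Cycles} (hz : X.IsCyc p z) (hp : X.dim < p) :
    W.cl X z = 0 := by
  have h := W.cl_mem hz
  rw [W.gr_eq_bot X _ (by omega)] at h
  exact (Submodule.mem_bot _).1 h

/-- If the codimension drops below zero, the push-forward vanishes. -/
lemma push_eq_zero_of_lt (f : X ⟶ Y) {i : ℕ} {a : W.H X} (ha : a ∈ W.gr X i)
    (hi : i + 2 * Y.dim < 2 * X.dim) : W.push f a = 0 := by
  apply W.nondeg
  intro b
  rw [W.tr_push]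
  refine gr_induction (W.isInternal Y) (p := fun b => W.tr X (a * W.map f b) = 0) ?_ ?_ b
  · intro j b hb
    by_cases hj : 2 * Y.dim < j
    · rw [W.gr_eq_bot Y j hj, Submodule.mem_bot] at hb
      rw [hb, map_zero, mul_zero, map_zero]
    · exact W.tr_eq_zero (W.mul_mem ha (W.map_mem f hb)) (by omega)
  · intro a b ha hb
    rw [map_add, mul_add, map_add, ha, hb, add_zero]

lemma algSpan_push (f : X ⟶ Y) {a : W.H X} (ha : a ∈ algSpan W X) :
    W.push f a ∈ algSpan W Y := by
  induction ha using Submodule.span_induction with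
  | mem x hx =>
    obtain ⟨p, z, hz, rfl⟩ := hx
    by_cases h : X.dim ≤ p + Y.dim
    · rw [← W.cl_push]
      exact algSpan_gen (ops.push_mem f (q := p + Y.dim - X.dim) hz (by omega))
    · rw [push_eq_zero_of_lt f (W.cl_mem hz) (by omega)]
      exact Submodule.zero_mem _
  | zero => rw [map_zero]; exact Submodule.zero_mem _
  | add x y _ _ hx hy => rw [map_add]; exact Submodule.add_mem _ hx hy
  | smul a x _ hx => rw [map_smul]; exact Submodule.smul_mem _ _ hx

/-- A homogeneous element of the span of all algebraic classes is a combination of classes of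
cycles of its codimension. -/
lemma mem_spanCycles_of_algSpan {q : ℕ} {a : W.H X} (ha : a ∈ algSpan W X)
    (hq : a ∈ W.gr X (2 * q)) : a ∈ spanCycles W X q := by
  rw [← proj_same (W.isInternal X) hq]
  clear hq
  induction ha using Submodule.span_induction with
  | mem x hx =>
    obtain ⟨p, z, hz, rfl⟩ := hx
    by_cases hpq : p = q
    · subst hpq
      rw [proj_same (W.isInternal X) (W.cl_mem hz)]
      exact Submodule.subset_span ⟨p, rfl, z, hz, rfl⟩
    · rw [proj_ne (W.isInternal X) (W.cl_mem hz) (by omega)]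
      exact Submodule.zero_mem _
  | zero => rw [map_zero]; exact Submodule.zero_mem _
  | add x y _ _ hx hy => rw [map_add]; exact Submodule.add_mem _ hx hy
  | smul a x _ hx => rw [map_smul]; exact Submodule.smul_mem _ _ hx

/-! ### parity -/

/-- The classes all of whose components have a degree congruent to `p` modulo two and at
least `p`. -/
def par (W : WeilCohomology.{u, v} ops) (X : 𝒱.Obj) (p : ℕ) : Submodule W.K (W.H X) :=
  ⨆ i : ℕ, W.gr X (2 * i + p)

lemma gr_le_par (X : 𝒱.Obj) (p : ℕ) : W.gr X p ≤ par W X p :=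
  le_iSup_of_le 0 (by simp)

lemma par_induction {p : ℕ} {P : W.H X → Prop} (h : ∀ i, ∀ a ∈ W.gr X (2 * i + p), P a)
    (h0 : P 0) (hadd : ∀ a b, P a → P b → P (a + b)) {a : W.H X} (ha : a ∈ par W X p) : P a :=
  Submodule.iSup_induction (fun i : ℕ => W.gr X (2 * i + p)) (motive := P) ha h h0 hadd

lemma gr_mem_par {i p : ℕ} {a : W.H X} (ha : a ∈ W.gr X (2 * i + p)) : a ∈ par W X p :=
  Submodule.mem_iSup_of_mem i ha

lemma par_add_two (X : 𝒱.Obj) (p : ℕ) : par W X (p + 2) ≤ par W X p := by
  apply iSup_le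
  intro i
  refine le_iSup_of_le (i + 1) (le_of_eq ?_)
  congr 1
  ring

lemma par_mul {p q : ℕ} {a b : W.H X} (ha : a ∈ par W X p) (hb : b ∈ par W X q) :
    a * b ∈ par W X (p + q) := by
  refine par_induction (P := fun a => a * b ∈ par W X (p + q)) ?_ ?_ ?_ ha
  · intro i a ha
    refine par_induction (P := fun b => a * b ∈ par W X (p + q)) ?_ ?_ ?_ hb
    · intro j b hb
      refine gr_mem_par (i := i + j) ?_
      have := W.mul_mem ha hb
      convert this using 2
      ring
    · simp
    · intro x y hx hy; rw [mul_add]; exact Submodule.add_mem _ hx hy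
  · simp
  · intro x y hx hy; rw [add_mul]; exact Submodule.add_mem _ hx hy

lemma par_comm {p q : ℕ} {a b : W.H X} (ha : a ∈ par W X p) (hb : b ∈ par W X q) :
    a * b = (-1 : W.K) ^ (p * q) • (b * a) := by
  refine par_induction (P := fun a => a * b = (-1 : W.K) ^ (p * q) • (b * a)) ?_ ?_ ?_ ha
  · intro i a ha
    refine par_induction (P := fun b => a * b = (-1 : W.K) ^ (p * q) • (b * a)) ?_ ?_ ?_ hb
    · intro j b hb
      rw [W.comm ha hb]
      congr 1
      rw [show (2 * i + p) * (2 * j + q) = 2 * (2 * i * j + i * q + p * j) + p * q by ring,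
        pow_add, pow_mul]
      simp
    · simp
    · intro x y hx hy; rw [mul_add, add_mul, hx, hy, smul_add]
  · simp
  · intro x y hx hy; rw [mul_add, add_mul, hx, hy, smul_add]

lemma par_map (f : X ⟶ Y) {p : ℕ} {a : W.H Y} (ha : a ∈ par W Y p) : W.map f a ∈ par W X p := by
  refine par_induction (P := fun a => W.map f a ∈ par W X p) ?_ ?_ ?_ ha
  · intro i a ha
    exact gr_mem_par (W.map_mem f ha)
  · simp
  · intro x y hx hy; rw [map_add]; exact Submodule.add_mem _ hx hy

lemma one_mem_par : (1 : W.H X) ∈ par W X 0 := gr_mem_par (i := 0) (by simpa using W.one_mem X)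

lemma algSpan_le_par : algSpan W X ≤ par W X 0 := by
  apply Submodule.span_le.2
  rintro c ⟨p, z, hz, rfl⟩
  exact gr_mem_par (i := p) (by simpa using W.cl_mem hz)

lemma par_zero_comm {a : W.H X} (ha : a ∈ par W X 0) (b : W.H X) : a * b = b * a := by
  refine par_induction (P := fun a => a * b = b * a) ?_ ?_ ?_ ha
  · intro i a ha
    exact W.even_comm (p := i) (by simpa using ha) b
  · simp
  · intro x y hx hy; rw [mul_add, add_mul, hx, hy]

/-! ### external products -/

lemma box_mem_par {p q : ℕ} {c : W.H X} {d : W.H Y} (hc : c ∈ par W X p) (hd : d ∈ par W Y q) :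
    box W c d ∈ par W (X.prod Y) (p + q) :=
  par_mul (par_map _ hc) (par_map _ hd)

lemma box_mem_gr {p q : ℕ} {c : W.H X} {d : W.H Y} (hc : c ∈ W.gr X p) (hd : d ∈ W.gr Y q) :
    box W c d ∈ W.gr (X.prod Y) (p + q) :=
  W.mul_mem (W.map_mem _ hc) (W.map_mem _ hd)

lemma box_add_left (c c' : W.H X) (d : W.H Y) : box W (c + c') d = box W c d + box W c' d := by
  simp only [box, map_add, add_mul]

lemma box_smul_left (a : W.K) (c : W.H X) (d : W.H Y) : box W (a • c) d = a • box W c d := by
  simp only [box, map_smul, smul_mul_assoc]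

lemma box_smul_right (a : W.K) (c : W.H X) (d : W.H Y) : box W c (a • d) = a • box W c d := by
  simp only [box, map_smul, mul_smul_comm]

lemma box_zero_left (d : W.H Y) : box W (0 : W.H X) d = 0 := by
  simp only [box, map_zero, zero_mul]

lemma box_zero_right (c : W.H X) : box W c (0 : W.H Y) = 0 := by
  simp only [box, map_zero, mul_zero]

lemma box_sum_left {ι : Type*} (s : Finset ι) (c : ι → W.H X) (d : W.H Y) :
    box W (∑ i ∈ s, c i) d = ∑ i ∈ s, box W (c i) d := by
  simp only [box, map_sum, Finset.sum_mul]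

lemma box_sum_right {ι : Type*} (s : Finset ι) (c : W.H X) (d : ι → W.H Y) :
    box W c (∑ i ∈ s, d i) = ∑ i ∈ s, box W c (d i) := by
  simp only [box, map_sum, Finset.mul_sum]

/-- The operator given by an external product. -/
lemma corr_box {p q : ℕ} {c : W.H X} {d : W.H Y} {x : W.H X} (hd : d ∈ par W Y q)
    (hx : x ∈ par W X p) : W.corr (box W c d) x = (-1 : W.K) ^ (q * p) • W.tr X (c * x) • d := by
  rw [corr_apply, box, mul_assoc, par_comm (par_map _ hd) (par_map _ hx), mul_smul_comm, map_smul,
    ← mul_assoc, ← map_mul, W.push_snd]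

end Pool.Agent.Helper9K9.DT
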