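import Pool.Agent.Helper9K9.DT.Power

/-!
# Contraction of a product of determinants
-/

set_option autoImplicit false

open CategoryTheory AlgebraicGeometry

universe u v

namespace Pool.Agent.Helper9K9.DT

open Pool.Agent.H914 VarClass Obj WeilCohomology

section Cofactor

variable {K : Type*} [Field K]

/-- The (unnormalised) matrix of cofactors. -/
noncomputable def cof {N : ℕ} (G : Matrix (Fin (N + 1)) (Fin (N + 1)) K) :
    Matrix (Fin (N + 1)) (Fin (N + 1)) K :=
  fun p q => ∑ σ : Equiv.Perm (Fin (N + 1)), ∑ τ : Equiv.Perm (Fin (N + 1)),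
    if σ 0 = p ∧ τ 0 = q then
      ((Equiv.Perm.sign σ : ℤ) : K) * ((Equiv.Perm.sign τ : ℤ) : K) *
        ∏ i : Fin N, G (σ i.succ) (τ i.succ) else 0

lemma sum_perm_zero {N : ℕ} (p : Fin (N + 1)) (c : K) :
    ∑ σ : Equiv.Perm (Fin (N + 1)), (if σ 0 = p then c else 0) = (N.factorial : K) * c := by
  rw [← Equiv.sum_comp (Equiv.Perm.decomposeFin (n := N)).symm, Fintype.sum_prod_type]
  simp only [Equiv.Perm.decomposeFin_symm_apply_zero]
  rw [Finset.sum_eq_single p]
  · simp [Fintype.card_perm]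
  · intro b _ hb
    simp [hb]
  · intro h; exact absurd (Finset.mem_univ _) h

lemma cof_mul_transpose {N : ℕ} (G : Matrix (Fin (N + 1)) (Fin (N + 1)) K) :
    cof G * G.transpose = ((N.factorial : K) * G.det) • 1 := by
  ext p r
  rw [Matrix.mul_apply]
  have h1 : ∀ σ : Equiv.Perm (Fin (N + 1)),
      ∑ τ : Equiv.Perm (Fin (N + 1)), ((Equiv.Perm.sign σ : ℤ) : K) *
        ((Equiv.Perm.sign τ : ℤ) : K) * (∏ i : Fin N, G (σ i.succ) (τ i.succ)) * G r (τ 0) =
      if σ 0 = r then G.det else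
        ((Equiv.Perm.sign σ : ℤ) : K) * (G.submatrix (Fin.cons r fun i => σ i.succ) id).det := by
    intro σ
    have h2 : ∑ τ : Equiv.Perm (Fin (N + 1)), ((Equiv.Perm.sign σ : ℤ) : K) *
        ((Equiv.Perm.sign τ : ℤ) : K) * (∏ i : Fin N, G (σ i.succ) (τ i.succ)) * G r (τ 0) =
        ((Equiv.Perm.sign σ : ℤ) : K) *
          (G.submatrix (Fin.cons r fun i => σ i.succ) id).det := by
      rw [← Matrix.det_transpose, Matrix.det_apply', Finset.mul_sum]
      refine Finset.sum_congr rfl fun τ _ => ?_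
      rw [Fin.prod_univ_succ]
      simp only [Matrix.transpose_apply, Matrix.submatrix_apply, Fin.cons_zero, Fin.cons_succ, id]
      ring
    rw [h2]
    split_ifs with h
    · have h3 : (Fin.cons r fun i => σ i.succ : Fin (N + 1) → Fin (N + 1)) = σ := by
        funext i
        refine Fin.cases ?_ (fun j => ?_) i
        · rw [Fin.cons_zero, h]
        · rw [Fin.cons_succ]
      rw [h3, show (G.submatrix (⇑σ) id).det = ((Equiv.Perm.sign σ : ℤ) : K) * G.det from
        Matrix.det_permute σ G, ← mul_assoc]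
      rcases Int.units_eq_one_or (Equiv.Perm.sign σ) with h4 | h4 <;> rw [h4] <;> simp
    · rfl
  have h4 : ∑ q, cof G p q * G.transpose q r = ∑ σ : Equiv.Perm (Fin (N + 1)),
      if σ 0 = p then (if σ 0 = r then G.det else
        ((Equiv.Perm.sign σ : ℤ) : K) *
          (G.submatrix (Fin.cons r fun i => σ i.succ) id).det) else 0 := by
    simp only [cof, Finset.sum_mul]
    rw [Finset.sum_comm]
    refine Finset.sum_congr rfl fun σ _ => ?_
    rw [Finset.sum_comm]
    by_cases hp : σ 0 = p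
    · rw [if_pos hp, ← h1 σ]
      refine Finset.sum_congr rfl fun τ _ => ?_
      rw [Finset.sum_eq_single (τ 0)]
      · rw [if_pos ⟨hp, rfl⟩]; rfl
      · intro q _ hq
        rw [if_neg fun h => hq h.2.symm, zero_mul]
      · intro h; exact absurd (Finset.mem_univ _) h
    · rw [if_neg hp]
      refine Finset.sum_eq_zero fun τ _ => Finset.sum_eq_zero fun q _ => ?_
      rw [if_neg fun h => hp h.1, zero_mul]
  rw [h4]
  by_cases hpr : p = r
  · subst hpr
    rw [Matrix.smul_apply, Matrix.one_apply_eq, smul_eq_mul, mul_one, ← sum_perm_zero p]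
    refine Finset.sum_congr rfl fun σ _ => ?_
    split_ifs <;> rfl
  · rw [Matrix.smul_apply, Matrix.one_apply_ne hpr, smul_zero]
    refine Finset.sum_eq_zero fun σ _ => ?_
    split_ifs with h5 h6
    · exact absurd (h5.symm.trans h6) hpr
    · -- two equal rows
      obtain ⟨i, hi⟩ : ∃ i : Fin N, σ i.succ = r := by
        obtain ⟨j, hj⟩ := σ.surjective r
        obtain ⟨i, rfl⟩ : ∃ i : Fin N, i.succ = j := by
          refine Fin.exists_succ_eq.2 ?_
          rintro rfl
          exact h6 hj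
        exact ⟨i, hj⟩
      rw [Matrix.det_zero_of_row_eq (i := 0) (j := i.succ) (Fin.succ_ne_zero i).symm, mul_zero]
      funext q
      simp only [Matrix.submatrix_apply, Fin.cons_zero, Fin.cons_succ, hi]
    · rfl

end Cofactor

variable {k : Type u} [Field k] {𝒱 : VarClass k} {ops : CycleOps 𝒱}
variable {W : WeilCohomology.{u, v} ops} {X Y Z : 𝒱.Obj}

lemma box_mul {s t : ℕ} {a b : W.H X} {A B : W.H Y} (hA : A ∈ par W Y s) (hb : b ∈ par W X t) :
    box W a A * box W b B = (-1 : W.K) ^ (s * t) • box W (a * b) (A * B) := by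
  simp only [box]
  rw [mul_assoc, ← mul_assoc (W.map (snd X Y) A), par_comm (par_map _ hA) (par_map _ hb),
    smul_mul_assoc, mul_smul_comm, map_mul, map_mul]
  simp only [mul_assoc]

lemma tr_box (a : W.H X) (b : W.H Y) : W.tr (X.prod Y) (box W a b) = W.tr X a * W.tr Y b :=
  W.tr_prod a b

/-- The degree of a triple product of external products. -/
lemma tr_ext_mul {p q : ℕ} (m : ℕ) : ∃ κ : W.K, κ ≠ 0 ∧ ∀ (a b : Fin (m + 1) → W.H X) (d : W.H X),
    (∀ i, a i ∈ par W X p) → (∀ i, b i ∈ par W X q) → d ∈ par W X 0 →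
    W.tr (pw X m) (ext W X a * ext W X b * ext W X fun _ => d) =
      κ * ∏ i, W.tr X (a i * b i * d) := by
  induction m with
  | zero =>
    refine ⟨1, one_ne_zero, fun a b d _ _ _ => ?_⟩
    rw [ext_zero, ext_zero, ext_zero, one_mul, Fin.prod_univ_one]
    rfl
  | succ m ih =>
    obtain ⟨κ, hκ, h⟩ := ih
    refine ⟨κ * (-1 : W.K) ^ ((m + 1) * p * q), mul_ne_zero hκ (pow_ne_zero _ (by simp)), ?_⟩
    intro a b d ha hb hd
    have hA := ext_mem_par (W := W) (m := m) fun i => ha i.succ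
    have hB := ext_mem_par (W := W) (m := m) fun i => hb i.succ
    have hd' : d ∈ par W X 0 := hd
    rw [ext_succ a, ext_succ b, ext_succ (fun _ => d)]
    change W.tr (X.prod (pw X m)) (box W (a 0) (ext W X fun i : Fin (m + 1) => a i.succ) *
      box W (b 0) (ext W X fun i : Fin (m + 1) => b i.succ) *
      box W d (ext W X fun _ : Fin (m + 1) => d)) = _
    rw [box_mul hA (hb 0), smul_mul_assoc,
      box_mul (t := 0) (par_mul hA hB) hd', mul_zero, pow_zero, one_smul, map_smul,
      tr_box, h _ _ d (fun i => ha i.succ) (fun i => hb i.succ) hd,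
      Fin.prod_univ_succ (fun i => W.tr X (a i * b i * d)), smul_eq_mul]
    ring

/-! ### the contraction -/

/-- The map `X ^ m × (X × X) → X ^ (m + 1) × X ^ (m + 1)`, `(z, (x, y)) ↦ ((x, z), (y, z))`. -/
noncomputable def cMap (X Q : 𝒱.Obj) : Q.prod (X.prod X) ⟶ (X.prod Q).prod (X.prod Q) :=
  Obj.lift (Obj.lift (snd Q (X.prod X) ≫ fst X X) (fst Q (X.prod X)))
    (Obj.lift (snd Q (X.prod X) ≫ snd X X) (fst Q (X.prod X)))

/-- The contraction with `δ`. -/
noncomputable def contr (W : WeilCohomology.{u, v} ops) (X Q : 𝒱.Obj) (δ : W.H Q) :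
    W.H ((X.prod Q).prod (X.prod Q)) →ₗ[W.K] W.H (X.prod X) :=
  W.push (snd Q (X.prod X)) ∘ₗ LinearMap.mulRight W.K (W.map (fst Q (X.prod X)) δ) ∘ₗ
    (W.map (cMap X Q)).toLinearMap

lemma contr_mem {Q : 𝒱.Obj} {δ : W.H Q} (hδ : δ ∈ algSpan W Q)
    {E : W.H ((X.prod Q).prod (X.prod Q))} (hE : E ∈ algSpan W _) :
    contr W X Q δ E ∈ algSpan W (X.prod X) :=
  algSpan_push _ (algSpan_mul (algSpan_map _ hE) (algSpan_map _ hδ))

lemma contr_box {Q : 𝒱.Obj} {p q s t : ℕ} {a b : W.H X} {A B δ : W.H Q} (ha : a ∈ par W X p)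
    (hb : b ∈ par W X q) (hA : A ∈ par W Q s) (hB : B ∈ par W Q t) (hδ : δ ∈ par W Q 0) :
    contr W X Q δ (box W (box W a A) (box W b B)) =
      ((-1 : W.K) ^ (s * q + (p + q) * (s + t)) * W.tr Q (A * B * δ)) • box W a b := by
  have e1 : W.map (cMap X Q) (box W (box W a A) (box W b B)) =
      (W.map (snd Q (X.prod X)) (W.map (fst X X) a) * W.map (fst Q (X.prod X)) A) *
        (W.map (snd Q (X.prod X)) (W.map (snd X X) b) * W.map (fst Q (X.prod X)) B) := by
    rw [box, map_mul, ← W.map_comp, ← W.map_comp, cMap, Obj.lift_fst, Obj.lift_snd, box, box,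
      map_mul, map_mul, ← W.map_comp, ← W.map_comp, ← W.map_comp, ← W.map_comp, Obj.lift_fst,
      Obj.lift_snd, Obj.lift_fst, Obj.lift_snd, W.map_comp, W.map_comp]
  have e2 : contr W X Q δ (box W (box W a A) (box W b B)) = W.push (snd Q (X.prod X))
      (W.map (cMap X Q) (box W (box W a A) (box W b B)) * W.map (fst Q (X.prod X)) δ) := rfl
  rw [e2, e1]
  have hA' := par_map (fst Q (X.prod X)) hA
  have hb' := par_map (snd Q (X.prod X)) (par_map (snd X X) hb)
  have e3 : (W.map (snd Q (X.prod X)) (W.map (fst X X) a) * W.map (fst Q (X.prod X)) A) *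
        (W.map (snd Q (X.prod X)) (W.map (snd X X) b) * W.map (fst Q (X.prod X)) B) *
        W.map (fst Q (X.prod X)) δ = (-1 : W.K) ^ (s * q) •
          (W.map (snd Q (X.prod X)) (box W a b) * W.map (fst Q (X.prod X)) (A * B * δ)) := by
    have e4 : (W.map (snd Q (X.prod X)) (W.map (fst X X) a) * W.map (fst Q (X.prod X)) A) *
        (W.map (snd Q (X.prod X)) (W.map (snd X X) b) * W.map (fst Q (X.prod X)) B) *
        W.map (fst Q (X.prod X)) δ = W.map (snd Q (X.prod X)) (W.map (fst X X) a) *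
        (W.map (fst Q (X.prod X)) A * W.map (snd Q (X.prod X)) (W.map (snd X X) b)) *
        W.map (fst Q (X.prod X)) B * W.map (fst Q (X.prod X)) δ := by
      simp only [mul_assoc]
    rw [e4, par_comm hA' hb']
    simp only [mul_smul_comm, smul_mul_assoc, box, map_mul, mul_assoc]
  have h5 : A * B * δ ∈ par W Q (s + t) := by simpa using par_mul (par_mul hA hB) hδ
  rw [e3, par_comm (par_map (snd Q (X.prod X)) (box_mem_par ha hb)) (par_map _ h5), smul_smul,
    map_smul, W.push_snd, smul_smul, pow_add]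

/-- **Contraction of a product of two determinants.** -/
theorem contr_alt {p : ℕ} (m : ℕ) : ∃ κ : W.K, κ ≠ 0 ∧ ∀ (v w : Fin (m + 2) → W.H X) (d : W.H X),
    (∀ i, v i ∈ par W X p) → (∀ i, w i ∈ par W X p) → d ∈ par W X 0 →
    contr W X (pw X m) (ext W X fun _ => d) (box W (alt W X v) (alt W X w)) =
      κ • ∑ i, ∑ j, cof (Matrix.of fun i j => W.tr X (v i * w j * d)) i j •
        box W (v i) (w j) := by
  obtain ⟨κ, hκ, h⟩ := tr_ext_mul (W := W) (X := X) (p := p) (q := p) m
  set ε : W.K := (-1 : W.K) ^ ((m + 1) * p * p + (p + p) * ((m + 1) * p + (m + 1) * p)) with hε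
  refine ⟨ε * κ, mul_ne_zero (pow_ne_zero _ (by simp)) hκ, ?_⟩
  intro v w d hv hw hd
  set G : Matrix (Fin (m + 2)) (Fin (m + 2)) W.K :=
    Matrix.of fun i j => W.tr X (v i * w j * d) with hG
  have hδ : (ext W X fun _ : Fin (m + 1) => d) ∈ par W (pw X m) 0 := by
    have := ext_mem_par (W := W) (X := X) (m := m) (p := 0) (a := fun _ => d) fun _ => hd
    simpa using this
  have h1 : ∀ σ τ : Equiv.Perm (Fin (m + 2)),
      contr W X (pw X m) (ext W X fun _ => d)
        (box W (ext W X fun i => v (σ i)) (ext W X fun i => w (τ i))) =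
      (ε * κ * ∏ i : Fin (m + 1), G (σ i.succ) (τ i.succ)) • box W (v (σ 0)) (w (τ 0)) := by
    intro σ τ
    rw [ext_succ (fun i => v (σ i)), ext_succ (fun i => w (τ i))]
    refine (contr_box (hv _) (hw _) (ext_mem_par fun i => hv _) (ext_mem_par fun i => hw _)
      hδ).trans ?_
    rw [h _ _ d (fun i => hv _) (fun i => hw _) hd, ← mul_assoc, ← hε]
    rfl
  have h2 : box W (alt W X v) (alt W X w) = ∑ σ : Equiv.Perm (Fin (m + 2)),
      ∑ τ : Equiv.Perm (Fin (m + 2)), (((Equiv.Perm.sign σ : ℤ) : W.K) *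
        ((Equiv.Perm.sign τ : ℤ) : W.K)) •
          box W (ext W X fun i => v (σ i)) (ext W X fun i => w (τ i)) := by
    rw [alt, alt, box_sum_left]
    refine Finset.sum_congr rfl fun σ _ => ?_
    rw [box_sum_right]
    refine Finset.sum_congr rfl fun τ _ => ?_
    rw [box_smul_left, box_smul_right, smul_smul]
  have h3 : contr W X (pw X m) (ext W X fun _ => d) (box W (alt W X v) (alt W X w)) =
      ∑ σ : Equiv.Perm (Fin (m + 2)), ∑ τ : Equiv.Perm (Fin (m + 2)),
        (((Equiv.Perm.sign σ : ℤ) : W.K) * ((Equiv.Perm.sign τ : ℤ) : W.K)) •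
        ((ε * κ * ∏ i : Fin (m + 1), G (σ i.succ) (τ i.succ)) • box W (v (σ 0)) (w (τ 0))) := by
    refine (congrArg (contr W X (pw X m) (ext W X fun _ => d)) h2).trans ?_
    refine (map_sum _ _ _).trans (Finset.sum_congr rfl fun σ _ => ?_)
    refine (map_sum _ _ _).trans (Finset.sum_congr rfl fun τ _ => ?_)
    exact (map_smul _ _ _).trans (congrArg _ (h1 σ τ))
  rw [h3]
  simp only [cof, Finset.sum_smul, Finset.smul_sum]
  have h4 : ∀ F : Equiv.Perm (Fin (m + 2)) → Equiv.Perm (Fin (m + 2)) → W.K,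
      (∑ i, ∑ j, ∑ σ : Equiv.Perm (Fin (m + 2)), ∑ τ : Equiv.Perm (Fin (m + 2)),
        (ε * κ) • ((if σ 0 = i ∧ τ 0 = j then F σ τ else 0) • box W (v i) (w j))) =
      ∑ σ : Equiv.Perm (Fin (m + 2)), ∑ τ : Equiv.Perm (Fin (m + 2)),
        (ε * κ) • (F σ τ • box W (v (σ 0)) (w (τ 0))) := by
    intro F
    have e1 : ∀ i, (∑ j, ∑ σ : Equiv.Perm (Fin (m + 2)), ∑ τ : Equiv.Perm (Fin (m + 2)),
        (ε * κ) • ((if σ 0 = i ∧ τ 0 = j then F σ τ else 0) • box W (v i) (w j))) =
        ∑ σ : Equiv.Perm (Fin (m + 2)), ∑ τ : Equiv.Perm (Fin (m + 2)), ∑ j,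
        (ε * κ) • ((if σ 0 = i ∧ τ 0 = j then F σ τ else 0) • box W (v i) (w j)) := by
      intro i
      rw [Finset.sum_comm]
      refine Finset.sum_congr rfl fun σ _ => ?_
      rw [Finset.sum_comm]
    simp only [e1]
    rw [Finset.sum_comm]
    refine Finset.sum_congr rfl fun σ _ => ?_
    rw [Finset.sum_comm]
    refine Finset.sum_congr rfl fun τ _ => ?_
    rw [Finset.sum_eq_single (σ 0), Finset.sum_eq_single (τ 0)]
    · rw [if_pos ⟨rfl, rfl⟩]
    · intro j _ hj
      rw [if_neg fun h => hj h.2.symm, zero_smul, smul_zero]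
    · intro h; exact absurd (Finset.mem_univ _) h
    · intro i _ hi
      refine Finset.sum_eq_zero fun j _ => ?_
      rw [if_neg fun h => hi h.1.symm, zero_smul, smul_zero]
    · intro h; exact absurd (Finset.mem_univ _) h
  rw [h4]
  refine Finset.sum_congr rfl fun σ _ => Finset.sum_congr rfl fun τ _ => ?_
  simp only [smul_smul]
  congr 1
  ring

end Pool.Agent.Helper9K9.DT
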