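import Pool.Agent.Helper9K9.LF.Defs

/-!
# The determinant of the cohomology: definitions
-/

set_option autoImplicit false

open CategoryTheory AlgebraicGeometry

universe u v

namespace Pool.Agent.Helper9K9.DT

open Pool.Agent.H914 VarClass Obj WeilCohomology

variable {k : Type u} [Field k] {𝒱 : VarClass k} {ops : CycleOps 𝒱}

/-- The power `X ^ (m + 1)`. -/
noncomputable def pw (X : 𝒱.Obj) : ℕ → 𝒱.Obj
  | 0 => X
  | m + 1 => X.prod (pw X m)

/-- The projections of `X ^ (m + 1)` to its factors. -/
noncomputable def pr (X : 𝒱.Obj) : (m : ℕ) → Fin (m + 1) → (pw X m ⟶ X)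
  | 0 => fun _ => 𝟙 X
  | m + 1 => Fin.cases (fst X (pw X m)) (fun j => snd X (pw X m) ≫ pr X m j)

/-- The external product `a 0 × … × a m` on `X ^ (m + 1)`: the product of the pull-backs of the
classes `a i` under the projections. -/
noncomputable def ext (W : WeilCohomology.{u, v} ops) (X : 𝒱.Obj) {m : ℕ}
    (a : Fin (m + 1) → W.H X) : W.H (pw X m) :=
  (List.ofFn fun i => W.map (pr X m i) (a i)).prod

/-- The determinant of `v 0, …, v m`: the alternating sum over all permutations `σ` of the
external products `v (σ 0) × … × v (σ m)` on `X ^ (m + 1)`. -/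
noncomputable def alt (W : WeilCohomology.{u, v} ops) (X : 𝒱.Obj) {m : ℕ}
    (v : Fin (m + 1) → W.H X) : W.H (pw X m) :=
  ∑ σ : Equiv.Perm (Fin (m + 1)), ((Equiv.Perm.sign σ : ℤ) : W.K) • ext W X (fun i => v (σ i))

/-- The external product of two classes. -/
noncomputable def box (W : WeilCohomology.{u, v} ops) {X Y : 𝒱.Obj} (c : W.H X) (d : W.H Y) :
    W.H (X.prod Y) :=
  W.map (fst X Y) c * W.map (snd X Y) d

/-- The square of the determinant of `H^j(X)` is algebraic: if `b` is the dimension of `H^j(X)`
and `v 0, …, v (b - 1)` are classes in `H^j(X)`, then the external product with itself of their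
determinant, a class on `X ^ b × X ^ b`, is a combination of classes of cycles of codimension
`b * j` with coefficients in the coefficient field of the cohomology. (If the `v i` form a basis of
`H^j(X)`, their determinant spans the line `⋀ ^ b H^j(X)` in `H^(bj)(X ^ b)`; in general it is a
multiple of this one. If `b = 0` the condition is empty.) -/
def DetAlgebraic (W : WeilCohomology.{u, v} ops) (X : 𝒱.Obj) (j : ℕ) : Prop :=
  ∀ (m : ℕ) (v : Fin (m + 1) → W.H X), bettiNumber W X j = m + 1 → (∀ i, v i ∈ W.gr X j) →
    box W (alt W X v) (alt W X v) ∈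
      spanCycles W ((pw X m).prod (pw X m)) (((m + 1) * j : ℕ) : ℤ)

end Pool.Agent.Helper9K9.DT
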