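import Pool.Agent.Helper9K9.DT.Contr

/-!
# The determinant criterion
-/

set_option autoImplicit false

open CategoryTheory AlgebraicGeometry

universe u v

namespace Pool.Agent.Helper9K9.DT

open Pool.Agent.H914 VarClass Obj WeilCohomology

variable {k : Type u} [Field k] {𝒱 : VarClass k} {ops : CycleOps 𝒱}
variable {W : WeilCohomology.{u, v} ops} {X Y Z : 𝒱.Obj}

lemma algSpan_list_prod {n : ℕ} {x : Fin (n + 1) → W.H Y} (hx : ∀ i, x i ∈ algSpan W Y) :
    (List.ofFn x).prod ∈ algSpan W Y := by
  induction n with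
  | zero => simpa using hx 0
  | succ n ih =>
    rw [List.ofFn_succ, List.prod_cons]
    exact algSpan_mul (hx 0) (ih fun i => hx i.succ)

/-- The determinant of a family transformed by a matrix. -/
lemma alt_matrix {m : ℕ} (A : Matrix (Fin (m + 1)) (Fin (m + 1)) W.K) (v : Fin (m + 1) → W.H X) :
    alt W X (fun i => ∑ j, A i j • v j) = A.det • alt W X v := by
  let e := Pi.basisFun W.K (Fin (m + 1))
  let f : (Fin (m + 1) → W.K) [⋀^Fin (m + 1)]→ₗ[W.K] W.H (pw X m) :=
    (altM W X m).compLinearMap (Fintype.linearCombination W.K v)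
  let g : (Fin (m + 1) → W.K) [⋀^Fin (m + 1)]→ₗ[W.K] W.H (pw X m) :=
    (LinearMap.toSpanSingleton W.K _ (f e)).compAlternatingMap e.det
  have hfg : f = g := by
    refine Module.Basis.ext_alternating e fun w hw => ?_
    have hbij : Function.Bijective w := Finite.injective_iff_bijective.1 hw
    let σ : Equiv.Perm (Fin (m + 1)) := Equiv.ofBijective w hbij
    have h1 : (fun i => e (w i)) = e ∘ σ := rfl
    rw [h1, AlternatingMap.map_perm, AlternatingMap.map_perm]
    congr 1
    simp [g, Module.Basis.det_self]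
  have h2 : f (fun i j => A i j) = alt W X (fun i => ∑ j, A i j • v j) := by
    have h4 : f (fun i j => A i j) =
      altM W X m (fun i => Fintype.linearCombination W.K v (fun j => A i j)) := rfl
    rw [h4, altM_apply]
    rfl
  have h3 : f e = alt W X v := by
    have h4 : f e = altM W X m (fun i => Fintype.linearCombination W.K v (e i)) := rfl
    rw [h4, altM_apply]
    congr 1
    funext i
    simp [e, Fintype.linearCombination_apply, Pi.single_apply]
  rw [← h2, hfg, ← h3]
  have h5 : g (fun i j => A i j) = (e.det fun i j => A i j) • f e := rfl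
  rw [h5]
  congr 1
  exact Pi.basisFun_det_apply _

lemma sgn_mul_self {n : ℕ} (σ : Equiv.Perm (Fin n)) (p : ℕ) :
    (((Equiv.Perm.sign σ : ℤ) : W.K) ^ (p + 1)) * (((Equiv.Perm.sign σ : ℤ) : W.K) ^ p) =
      ((Equiv.Perm.sign σ : ℤ) : W.K) := by
  rcases Int.units_eq_one_or (Equiv.Perm.sign σ) with h | h <;> rw [h]
  · simp
  · have h1 : ((-1 : W.K) ^ p) * (-1) ^ p = 1 := by
      rw [← mul_pow]; simp
    have h2 : (((-1 : ℤˣ) : ℤ) : W.K) = -1 := by simp
    rw [h2, pow_succ, mul_right_comm, h1, one_mul]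

/-- **From an algebraic tensor to the product of the determinants.** -/
theorem alt_box_mem {p m : ℕ} {a b : Fin (m + 1) → W.H X} (ha : ∀ i, a i ∈ par W X p)
    (hb : ∀ i, b i ∈ par W X p) (hT : ∑ q, box W (a q) (b q) ∈ algSpan W (X.prod X)) :
    box W (alt W X a) (alt W X b) ∈ algSpan W ((pw X m).prod (pw X m)) := by
  classical
  obtain ⟨κ, hκ, hprod⟩ := prod_mul (W := W) (Y := (pw X m).prod (pw X m)) (p := p) (q := p) (m + 1)
  let f : Equiv.Perm (Fin (m + 1)) → Fin (m + 1) → ((pw X m).prod (pw X m) ⟶ X.prod X) :=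
    fun σ i => Obj.lift (fst (pw X m) (pw X m) ≫ pr X m (σ i)) (snd (pw X m) (pw X m) ≫ pr X m i)
  let Tσ : Equiv.Perm (Fin (m + 1)) → W.H ((pw X m).prod (pw X m)) := fun σ =>
    (List.ofFn fun i => W.map (f σ i) (∑ q, box W (a q) (b q))).prod
  have h1 : ∀ σ, Tσ σ ∈ algSpan W ((pw X m).prod (pw X m)) := fun σ =>
    algSpan_list_prod fun i => algSpan_map _ hT
  let x : Fin (m + 1) → Fin (m + 1) → W.H ((pw X m).prod (pw X m)) := fun i q =>
    W.map (fst (pw X m) (pw X m) ≫ pr X m i) (a q)
  let y : Fin (m + 1) → Fin (m + 1) → W.H ((pw X m).prod (pw X m)) := fun i q =>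
    W.map (snd (pw X m) (pw X m) ≫ pr X m i) (b q)
  have hx : ∀ i q, x i q ∈ par W _ p := fun i q => par_map _ (ha q)
  have hy : ∀ i q, y i q ∈ par W _ p := fun i q => par_map _ (hb q)
  have h2 : ∀ σ : Equiv.Perm (Fin (m + 1)), Tσ σ =
      ∑ g : Fin (m + 1) → Fin (m + 1), (κ * ((Equiv.Perm.sign σ : ℤ) : W.K) ^ p) •
        box W (ext W X fun i => a (g (σ.symm i))) (ext W X fun i => b (g i)) := by
    intro σ
    have e1 : ∀ i, W.map (f σ i) (∑ q, box W (a q) (b q)) = ∑ q, x (σ i) q * y i q := by
      intro i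
      rw [map_sum]
      refine Finset.sum_congr rfl fun q _ => ?_
      rw [box, map_mul, ← W.map_comp, ← W.map_comp, Obj.lift_fst, Obj.lift_snd]
    have e2 : Tσ σ = ∑ g : Fin (m + 1) → Fin (m + 1),
        (List.ofFn fun i => x (σ i) (g i) * y i (g i)).prod := by
      change (List.ofFn fun i => W.map (f σ i) (∑ q, box W (a q) (b q))).prod = _
      simp only [e1]
      have := MultilinearMap.map_sum
        (MultilinearMap.mkPiAlgebraFin W.K (m + 1) (W.H ((pw X m).prod (pw X m))))
        (fun (i : Fin (m + 1)) (q : Fin (m + 1)) => x (σ i) q * y i q)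
      simpa only [MultilinearMap.mkPiAlgebraFin_apply] using this
    rw [e2]
    refine Finset.sum_congr rfl fun g _ => ?_
    rw [hprod _ _ (fun i => hx _ _) (fun i => hy _ _)]
    have e3 : (List.ofFn fun i => x (σ i) (g i)).prod = (((Equiv.Perm.sign σ : ℤ) : W.K) ^ p) •
        W.map (fst (pw X m) (pw X m)) (ext W X fun i => a (g (σ.symm i))) := by
      rw [map_ext_prod, ← prod_perm (W := W) (p := p)
        (x := fun i => W.map (fst (pw X m) (pw X m) ≫ pr X m i) (a (g (σ.symm i))))
        (fun i => par_map _ (ha _)) σ]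
      simp only [Equiv.symm_apply_apply]
      rfl
    have e4 : (List.ofFn fun i => y i (g i)).prod =
        W.map (snd (pw X m) (pw X m)) (ext W X fun i => b (g i)) := by
      rw [map_ext_prod]
    rw [e3, e4, smul_mul_assoc, smul_smul]
    rfl
  have h3 : ∑ σ : Equiv.Perm (Fin (m + 1)), (((Equiv.Perm.sign σ : ℤ) : W.K) ^ (p + 1)) • Tσ σ =
      κ • box W (alt W X a) (alt W X b) := by
    have e1 : ∀ g : Fin (m + 1) → Fin (m + 1),
        ∑ σ : Equiv.Perm (Fin (m + 1)), ((Equiv.Perm.sign σ : ℤ) : W.K) •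
          box W (ext W X fun i => a (g (σ.symm i))) (ext W X fun i => b (g i)) =
        box W (alt W X fun i => a (g i)) (ext W X fun i => b (g i)) := by
      intro g
      rw [alt, box_sum_left, ← Equiv.sum_comp (Equiv.inv (Equiv.Perm (Fin (m + 1))))]
      refine Finset.sum_congr rfl fun σ _ => ?_
      rw [box_smul_left]
      simp only [Equiv.inv_apply, Equiv.Perm.sign_inv]
      rfl
    have e2 : ∑ σ : Equiv.Perm (Fin (m + 1)), (((Equiv.Perm.sign σ : ℤ) : W.K) ^ (p + 1)) • Tσ σ =
        κ • ∑ g : Fin (m + 1) → Fin (m + 1),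
          box W (alt W X fun i => a (g i)) (ext W X fun i => b (g i)) := by
      simp only [h2, Finset.smul_sum, ← e1]
      rw [Finset.sum_comm]
      refine Finset.sum_congr rfl fun g _ => Finset.sum_congr rfl fun σ _ => ?_
      rw [smul_smul, smul_smul, mul_left_comm, sgn_mul_self σ p]
    rw [e2]
    congr 1
    have e3 : ∑ g : Fin (m + 1) → Fin (m + 1),
          box W (alt W X fun i => a (g i)) (ext W X fun i => b (g i)) =
        ∑ σ : Equiv.Perm (Fin (m + 1)),
          box W (alt W X fun i => a (σ i)) (ext W X fun i => b (σ i)) := by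
      symm
      refine Finset.sum_of_injOn (fun σ : Equiv.Perm (Fin (m + 1)) => (σ : Fin (m + 1) → Fin (m + 1)))
        (fun σ _ τ _ h => Equiv.coe_fn_injective h) (fun σ _ => Finset.mem_coe.2 (Finset.mem_univ _))
        ?_ (fun σ _ => rfl)
      intro g _ hg
      have hinj : ¬ Function.Injective g := by
        intro hinj
        apply hg
        exact ⟨Equiv.ofBijective g (Finite.injective_iff_bijective.1 hinj),
          Finset.mem_coe.2 (Finset.mem_univ _), rfl⟩
      rw [alt_eq_zero a hinj, box_zero_left]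
    rw [e3]
    have e4 : box W (alt W X a) (alt W X b) = ∑ σ : Equiv.Perm (Fin (m + 1)),
        box W (alt W X a) (((Equiv.Perm.sign σ : ℤ) : W.K) • ext W X fun i => b (σ i)) := by
      rw [← box_sum_right]
      rfl
    rw [e4]
    refine Finset.sum_congr rfl fun σ _ => ?_
    rw [alt_perm, box_smul_left, box_smul_right]
  have h4 : κ • box W (alt W X a) (alt W X b) ∈ algSpan W ((pw X m).prod (pw X m)) := by
    rw [← h3]
    exact Submodule.sum_mem _ fun σ _ => Submodule.smul_mem _ _ (h1 σ)
  exact (Submodule.smul_mem_iff _ hκ).1 h4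

/-- The Gram matrix of two families of classes. -/
noncomputable def gram (W : WeilCohomology.{u, v} ops) (X : 𝒱.Obj) {m : ℕ}
    (v w : Fin (m + 1) → W.H X) (d : W.H X) : Matrix (Fin (m + 1)) (Fin (m + 1)) W.K :=
  Matrix.of fun i j => W.tr X (v i * w j * d)

/-- The tensor inverse to the Gram matrix. -/
noncomputable def inv2 (W : WeilCohomology.{u, v} ops) (X : 𝒱.Obj) {m : ℕ}
    (v w : Fin (m + 1) → W.H X) (d : W.H X) : W.H (X.prod X) :=
  ∑ j, box W (∑ i, (gram W X v w d)⁻¹ j i • v i) (w j)

lemma alt_zero (v : Fin 1 → W.H X) : alt W X (m := 0) v = v 0 := by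
  have : Unique (Equiv.Perm (Fin (0 + 1))) := inferInstanceAs (Unique (Equiv.Perm (Fin 1)))
  rw [alt, Finset.univ_unique, Finset.sum_singleton, ext_zero, Unique.default_eq (1 :
    Equiv.Perm (Fin (0 + 1)))]
  simp only [Equiv.Perm.sign_one, Units.val_one, Int.cast_one, Equiv.Perm.one_apply]
  exact one_smul _ _

/-- **The determinant criterion**: the product of the determinants of `v` and `w` is algebraic if
and only if the inverse tensor is. -/
theorem alt_box_iff {p m : ℕ} {v w : Fin (m + 1) → W.H X} {d : W.H X}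
    (hv : ∀ i, v i ∈ par W X p) (hw : ∀ i, w i ∈ par W X p) (hd : d ∈ algSpan W X)
    (hG : (gram W X v w d).det ≠ 0) :
    box W (alt W X v) (alt W X w) ∈ algSpan W ((pw X m).prod (pw X m)) ↔
      inv2 W X v w d ∈ algSpan W (X.prod X) := by
  set G := gram W X v w d with hGdef
  have hU : IsUnit G.det := isUnit_iff_ne_zero.2 hG
  constructor
  · intro h
    -- a matrix `M` proportional to the transpose of the inverse with algebraic tensor
    obtain ⟨M, c, hc, hM, hmem⟩ : ∃ (M : Matrix (Fin (m + 1)) (Fin (m + 1)) W.K) (c : W.K), c ≠ 0 ∧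
        M * G.transpose = c • 1 ∧
        ∑ i, ∑ j, M i j • box W (v i) (w j) ∈ algSpan W (X.prod X) := by
      cases m with
      | zero =>
        refine ⟨1, G.det, hG, ?_, ?_⟩
        · rw [one_mul]
          ext i j
          have hi : i = 0 := Subsingleton.elim (α := Fin 1) i 0
          have hj : j = 0 := Subsingleton.elim (α := Fin 1) j 0
          rw [hi, hj]
          simp only [Matrix.transpose_apply, Matrix.smul_apply, Matrix.one_apply_eq, smul_eq_mul,
            mul_one]
          exact (Matrix.det_fin_one _).symm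
        · rw [alt_zero, alt_zero] at h
          have h1 : ∑ i : Fin 1, ∑ j : Fin 1, (1 : Matrix (Fin 1) (Fin 1) W.K) i j •
              box W (v i) (w j) = box W (v 0) (w 0) := by simp
          exact h1 ▸ h
      | succ m =>
        obtain ⟨κ, hκ, hc⟩ := contr_alt (W := W) (X := X) (p := p) m
        refine ⟨cof G, ((m + 1).factorial : W.K) * G.det,
          mul_ne_zero (Nat.cast_ne_zero.2 (Nat.factorial_ne_zero _)) hG, cof_mul_transpose G, ?_⟩
        have h1 := contr_mem (W := W) (X := X) (Q := pw X m)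
          (δ := ext W X fun _ => d) (ext_mem_algSpan fun _ => hd) h
        have h2 : κ • ∑ i, ∑ j, cof G i j • box W (v i) (w j) ∈ algSpan W (X.prod X) := by
          have h3 := hc v w d hv hw (algSpan_le_par hd)
          have h4 : G = Matrix.of fun i j => W.tr X (v i * w j * d) := rfl
          rw [h4]
          exact h3 ▸ h1
        exact (Submodule.smul_mem_iff _ hκ).1 h2
    have h5 : M = c • (G⁻¹).transpose := by
      have h6 : M * G.transpose * (G⁻¹).transpose = c • (G⁻¹).transpose := by
        rw [hM, Matrix.smul_mul, Matrix.one_mul]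
      rwa [Matrix.mul_assoc, ← Matrix.transpose_mul, Matrix.nonsing_inv_mul _ hU,
        Matrix.transpose_one, Matrix.mul_one] at h6
    have h7 : ∑ i, ∑ j, M i j • box W (v i) (w j) = c • inv2 W X v w d := by
      rw [Finset.sum_comm, inv2, Finset.smul_sum]
      refine Finset.sum_congr rfl fun j _ => ?_
      rw [box_sum_left, Finset.smul_sum]
      refine Finset.sum_congr rfl fun i _ => ?_
      rw [h5, box_smul_left, smul_smul]
      rfl
    rw [h7] at hmem
    exact (Submodule.smul_mem_iff _ hc).1 hmem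
  · intro h
    have h1 := alt_box_mem (W := W) (X := X) (p := p)
      (a := fun j => ∑ i, (gram W X v w d)⁻¹ j i • v i) (b := w)
      (fun j => Submodule.sum_mem _ fun i _ => Submodule.smul_mem _ _ (hv i)) hw h
    rw [alt_matrix, box_smul_left] at h1
    refine (Submodule.smul_mem_iff _ ?_).1 h1
    rw [Matrix.det_nonsing_inv, Ring.inverse_eq_inv']
    exact inv_ne_zero hG

/-- The operator of the inverse tensor. -/
lemma corr_inv2 {p q m : ℕ} {v w : Fin (m + 1) → W.H X} {d : W.H X}
    (hw : ∀ i, w i ∈ par W X p) {x : W.H X} (hx : x ∈ par W X q) :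
    W.corr (inv2 W X v w d) x = (-1 : W.K) ^ (p * q) •
      ∑ j, (∑ i, (gram W X v w d)⁻¹ j i * W.tr X (v i * x)) • w j := by
  have h1 : W.corr (inv2 W X v w d) x =
      ∑ j, W.corr (box W (∑ i, (gram W X v w d)⁻¹ j i • v i) (w j)) x := by
    simp only [corr_apply, inv2, Finset.sum_mul, map_sum]
  rw [h1, Finset.smul_sum]
  refine Finset.sum_congr rfl fun j _ => ?_
  rw [corr_box (hw j) hx]
  congr 2
  rw [Finset.sum_mul, map_sum]
  refine Finset.sum_congr rfl fun i _ => ?_
  rw [smul_mul_assoc, map_smul, smul_eq_mul]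

/-- The operator of the inverse tensor inverts the product with `d`. -/
lemma corr_inv2_mul {p m : ℕ} {v w : Fin (m + 1) → W.H X} {d : W.H X}
    (hw : ∀ i, w i ∈ par W X p) (hd : d ∈ par W X 0) (hG : (gram W X v w d).det ≠ 0)
    (l : Fin (m + 1)) :
    W.corr (inv2 W X v w d) (w l * d) = (-1 : W.K) ^ (p * p) • w l := by
  have hx : w l * d ∈ par W X p := by simpa using par_mul (hw l) hd
  rw [corr_inv2 hw hx]
  congr 1
  have h1 : ∀ j, ∑ i, (gram W X v w d)⁻¹ j i * W.tr X (v i * (w l * d)) =
      (1 : Matrix (Fin (m + 1)) (Fin (m + 1)) W.K) j l := by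
    intro j
    rw [← Matrix.nonsing_inv_mul (gram W X v w d) (isUnit_iff_ne_zero.2 hG), Matrix.mul_apply]
    refine Finset.sum_congr rfl fun i _ => ?_
    rw [← mul_assoc]
    rfl
  simp only [h1]
  simp [Matrix.one_apply]

/-- The operator of the inverse tensor kills the orthogonal complement of `v`. -/
lemma corr_inv2_zero {p q m : ℕ} {v w : Fin (m + 1) → W.H X} {d : W.H X}
    (hw : ∀ i, w i ∈ par W X p) {x : W.H X} (hx : x ∈ par W X q)
    (h : ∀ i, W.tr X (v i * x) = 0) : W.corr (inv2 W X v w d) x = 0 := by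
  rw [corr_inv2 hw hx]
  simp [h]

end Pool.Agent.Helper9K9.DT
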