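import Pool.Agent.Helper9K9.DT.Alg

/-!
# Powers of a variety, ordered products and determinants
-/

set_option autoImplicit false

open CategoryTheory AlgebraicGeometry

universe u v

namespace Pool.Agent.Helper9K9.DT

open Pool.Agent.H914 VarClass Obj WeilCohomology

variable {k : Type u} [Field k] {𝒱 : VarClass k} {ops : CycleOps 𝒱}
variable {W : WeilCohomology.{u, v} ops} {X Y Z : 𝒱.Obj}

lemma dim_pw (X : 𝒱.Obj) (m : ℕ) : (pw X m).dim = (m + 1) * X.dim := by
  induction m with
  | zero => simp [pw]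
  | succ m ih => rw [pw, dim_prod, ih]; ring

lemma pr_zero (X : 𝒱.Obj) (m : ℕ) : pr X (m + 1) 0 = fst X (pw X m) := rfl

lemma pr_succ (X : 𝒱.Obj) (m : ℕ) (i : Fin (m + 1)) :
    pr X (m + 1) i.succ = snd X (pw X m) ≫ pr X m i := rfl

lemma ext_zero (a : Fin 1 → W.H X) : ext W X (m := 0) a = a 0 := by
  simp only [ext, List.ofFn_succ, List.ofFn_zero, List.prod_cons, List.prod_nil, mul_one]
  exact W.map_id X (a 0)

lemma ext_succ {m : ℕ} (a : Fin (m + 2) → W.H X) :
    ext W X (m := m + 1) a = box W (a 0) (ext W X (m := m) fun i => a i.succ) := by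
  rw [ext, List.ofFn_succ, List.prod_cons, box, pr_zero]
  congr 1
  rw [ext, map_list_prod, List.map_ofFn]
  congr 1
  congr 1
  funext i
  exact W.map_comp (snd X (pw X m)) (pr X m i) (a i.succ)

/-- Pull-back of an external product along a map. -/
lemma map_ext_prod {m : ℕ} (f : Y ⟶ pw X m) (a : Fin (m + 1) → W.H X) :
    W.map f (ext W X a) = (List.ofFn fun i => W.map (f ≫ pr X m i) (a i)).prod := by
  rw [ext, map_list_prod, List.map_ofFn]
  congr 2
  funext i
  rw [W.map_comp]
  rfl

lemma ext_mem_par {m p : ℕ} {a : Fin (m + 1) → W.H X} (ha : ∀ i, a i ∈ par W X p) :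
    ext W X a ∈ par W (pw X m) ((m + 1) * p) := by
  induction m with
  | zero => rw [ext_zero, zero_add, one_mul]; exact ha 0
  | succ m ih =>
    rw [ext_succ]
    have := box_mem_par (W := W) (ha 0) (ih fun i => ha i.succ)
    rw [show (m + 1 + 1) * p = p + (m + 1) * p by ring]
    exact this

lemma ext_mem_gr {m p : ℕ} {a : Fin (m + 1) → W.H X} (ha : ∀ i, a i ∈ W.gr X p) :
    ext W X a ∈ W.gr (pw X m) ((m + 1) * p) := by
  induction m with
  | zero => rw [ext_zero, zero_add, one_mul]; exact ha 0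
  | succ m ih =>
    rw [ext_succ]
    have := box_mem_gr (W := W) (ha 0) (ih fun i => ha i.succ)
    rw [show (m + 1 + 1) * p = p + (m + 1) * p by ring]
    exact this

lemma alt_mem_gr {m p : ℕ} {v : Fin (m + 1) → W.H X} (hv : ∀ i, v i ∈ W.gr X p) :
    alt W X v ∈ W.gr (pw X m) ((m + 1) * p) :=
  Submodule.sum_mem _ fun σ _ => Submodule.smul_mem _ _ (ext_mem_gr fun i => hv (σ i))

lemma ext_mem_algSpan {m : ℕ} {a : Fin (m + 1) → W.H X} (ha : ∀ i, a i ∈ algSpan W X) :
    ext W X a ∈ algSpan W (pw X m) := by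
  induction m with
  | zero => rw [ext_zero]; exact ha 0
  | succ m ih =>
    rw [ext_succ]
    exact algSpan_mul (algSpan_map _ (ha 0)) (algSpan_map _ (ih fun i => ha i.succ))

/-! ### multilinearity -/

/-- The external product as a multilinear map. -/
noncomputable def extM (W : WeilCohomology.{u, v} ops) (X : 𝒱.Obj) (m : ℕ) :
    MultilinearMap W.K (fun _ : Fin (m + 1) => W.H X) (W.H (pw X m)) :=
  (MultilinearMap.mkPiAlgebraFin W.K (m + 1) (W.H (pw X m))).compLinearMap
    fun i => (W.map (pr X m i)).toLinearMap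

lemma extM_apply {m : ℕ} (a : Fin (m + 1) → W.H X) : extM W X m a = ext W X a := by
  rw [extM, MultilinearMap.compLinearMap_apply, MultilinearMap.mkPiAlgebraFin_apply]
  rfl

/-- The determinant as an alternating map. -/
noncomputable def altM (W : WeilCohomology.{u, v} ops) (X : 𝒱.Obj) (m : ℕ) :
    (W.H X) [⋀^Fin (m + 1)]→ₗ[W.K] W.H (pw X m) :=
  MultilinearMap.alternatization (extM W X m)

lemma altM_apply {m : ℕ} (v : Fin (m + 1) → W.H X) : altM W X m v = alt W X v := by
  rw [altM, MultilinearMap.alternatization_apply, alt]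
  refine Finset.sum_congr rfl fun σ _ => ?_
  rw [MultilinearMap.domDomCongr_apply, extM_apply]
  rcases Int.units_eq_one_or (Equiv.Perm.sign σ) with h | h <;> rw [h] <;> simp

lemma alt_perm {m : ℕ} (v : Fin (m + 1) → W.H X) (σ : Equiv.Perm (Fin (m + 1))) :
    alt W X (fun i => v (σ i)) = ((Equiv.Perm.sign σ : ℤ) : W.K) • alt W X v := by
  rw [← altM_apply, ← altM_apply]
  have := (altM W X m).map_perm v σ
  rw [show (fun i => v (σ i)) = v ∘ σ from rfl, this]
  rcases Int.units_eq_one_or (Equiv.Perm.sign σ) with h | h <;> rw [h] <;> simp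

lemma alt_eq_zero {m : ℕ} (v : Fin (m + 1) → W.H X) {f : Fin (m + 1) → Fin (m + 1)}
    (hf : ¬ Function.Injective f) : alt W X (fun i => v (f i)) = 0 := by
  rw [← altM_apply]
  exact (altM W X m).map_eq_zero_of_not_injective _ fun h => hf fun a b hab =>
    h (by simp only [hab])

/-- On a subspace of dimension `m + 1` the determinant is unique up to a factor. -/
lemma alt_eq_smul {m : ℕ} {V : Submodule W.K (W.H X)} (e : Module.Basis (Fin (m + 1)) W.K V)
    {a : Fin (m + 1) → W.H X} (ha : ∀ i, a i ∈ V) :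
    ∃ c : W.K, alt W X a = c • alt W X (fun i => (e i : W.H X)) := by
  let f : V [⋀^Fin (m + 1)]→ₗ[W.K] W.H (pw X m) := (altM W X m).compLinearMap V.subtype
  let g : V [⋀^Fin (m + 1)]→ₗ[W.K] W.H (pw X m) :=
    (LinearMap.toSpanSingleton W.K _ (f e)).compAlternatingMap e.det
  have hfg : f = g := by
    refine Module.Basis.ext_alternating e fun w hw => ?_
    have hbij : Function.Bijective w := Finite.injective_iff_bijective.1 hw
    let σ : Equiv.Perm (Fin (m + 1)) := Equiv.ofBijective w hbij
    have h1 : (fun i => e (w i)) = e ∘ σ := rfl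
    rw [h1, AlternatingMap.map_perm, AlternatingMap.map_perm]
    congr 1
    simp [g, Module.Basis.det_self]
  refine ⟨e.det fun i => ⟨a i, ha i⟩, ?_⟩
  have h2 : f (fun i => ⟨a i, ha i⟩) = alt W X a := by
    rw [← altM_apply]; rfl
  have h3 : f e = alt W X (fun i => (e i : W.H X)) := by
    rw [← altM_apply]; rfl
  rw [← h2, hfg, ← h3]
  rfl

/-! ### signs -/

/-- Permuting the factors of an ordered product of classes of parity `p`. -/
lemma prod_perm {p b : ℕ} {x : Fin b → W.H Y} (hx : ∀ i, x i ∈ par W Y p)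
    (σ : Equiv.Perm (Fin b)) :
    (List.ofFn fun i => x (σ i)).prod =
      (((Equiv.Perm.sign σ : ℤ) : W.K) ^ p) • (List.ofFn x).prod := by
  rcases Nat.even_or_odd p with hp | hp
  · have h1 : (((Equiv.Perm.sign σ : ℤ) : W.K) ^ p) = 1 := by
      rcases Int.units_eq_one_or (Equiv.Perm.sign σ) with h | h <;> rw [h] <;> simp [hp]
    rw [h1, one_smul]
    have hperm : (List.ofFn fun i => x (σ i)).Perm (List.ofFn x) := Equiv.Perm.ofFn_comp_perm σ x
    refine List.Perm.prod_eq' hperm ?_
    rw [List.pairwise_ofFn]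
    intro i j _
    have := par_comm (hx (σ i)) (hx (σ j))
    rw [Even.neg_one_pow (hp.mul_right p), one_smul] at this
    exact this
  · have hsq : ∀ y : par W Y p, (par W Y p).subtype y * (par W Y p).subtype y = 0 := by
      intro y
      have h1 := par_comm y.2 y.2
      rw [Odd.neg_one_pow (hp.mul hp), neg_one_smul] at h1
      have h2 : (2 : W.K) • ((y : W.H Y) * y) = 0 := by
        rw [two_smul]; nth_rw 1 [h1]; exact neg_add_cancel _
      exact (smul_eq_zero.1 h2).resolve_left two_ne_zero
    let F := ExteriorAlgebra.lift W.K ⟨(par W Y p).subtype, hsq⟩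
    have hF : ∀ z : Fin b → par W Y p,
        F (ExteriorAlgebra.ιMulti W.K b z) = (List.ofFn fun i => (z i : W.H Y)).prod := by
      intro z
      rw [ExteriorAlgebra.ιMulti_apply, map_list_prod, List.map_ofFn]
      congr 2
      funext i
      simp [F]
    let z : Fin b → par W Y p := fun i => ⟨x i, hx i⟩
    have h3 := hF (z ∘ σ)
    rw [AlternatingMap.map_perm] at h3
    have h4 := hF z
    change _ = (List.ofFn fun i => x (σ i)).prod at h3
    change _ = (List.ofFn x).prod at h4
    rw [← h3, ← h4]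
    rcases Int.units_eq_one_or (Equiv.Perm.sign σ) with h | h <;> rw [h] <;> simp [hp.neg_one_pow]

/-- Moving a class past an ordered product. -/
lemma comm_prod {p q b : ℕ} {x : Fin b → W.H Y} (hx : ∀ i, x i ∈ par W Y p) {y : W.H Y}
    (hy : y ∈ par W Y q) :
    y * (List.ofFn x).prod = (-1 : W.K) ^ (q * (b * p)) • ((List.ofFn x).prod * y) := by
  induction b with
  | zero => simp
  | succ b ih =>
    rw [List.ofFn_succ, List.prod_cons, ← mul_assoc, par_comm hy (hx 0), smul_mul_assoc, mul_assoc,
      ih fun i => hx i.succ, mul_smul_comm, smul_smul, ← pow_add, mul_assoc]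
    congr 2
    ring

/-- Separating the factors of an ordered product of products. -/
lemma prod_mul {p q : ℕ} (b : ℕ) : ∃ κ : W.K, κ ≠ 0 ∧ ∀ x y : Fin b → W.H Y,
    (∀ i, x i ∈ par W Y p) → (∀ i, y i ∈ par W Y q) →
    (List.ofFn fun i => x i * y i).prod = κ • ((List.ofFn x).prod * (List.ofFn y).prod) := by
  induction b with
  | zero => exact ⟨1, one_ne_zero, fun x y _ _ => by simp⟩
  | succ b ih =>
    obtain ⟨κ, hκ, h⟩ := ih
    refine ⟨κ * (-1 : W.K) ^ (q * (b * p)), mul_ne_zero hκ (pow_ne_zero _ (by simp)), ?_⟩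
    intro x y hx hy
    rw [List.ofFn_succ, List.prod_cons,
      h (fun i => x i.succ) (fun i => y i.succ) (fun i => hx _) (fun i => hy _),
      List.ofFn_succ (f := x), List.ofFn_succ (f := y), List.prod_cons, List.prod_cons,
      mul_smul_comm]
    have h1 := comm_prod (x := fun i : Fin b => x i.succ) (fun i => hx _) (hy 0)
    rw [mul_assoc (x 0), ← mul_assoc (y 0), h1, smul_mul_assoc, mul_smul_comm, smul_smul]
    congr 1
    simp only [mul_assoc]

end Pool.Agent.Helper9K9.DT
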